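import Mathlib

set_option autoImplicit false

/-!
# Decomposition matrices of finite groups

Let `p` be a prime. The `p`-modular system is given by the algebraic closure `k` of the field with
`p` elements and an injective homomorphism `θ : kˣ →* ℂˣ` (the lift of the roots of unity of order
prime to `p`), which is what the Brauer characters are made with.
-/

namespace Pool.Agent.X13.SL.Dec

/-- The `p`-regular elements of a group. -/
def Reg (p : ℕ) (G : Type) [Group G] : Type := {g : G // ¬ p ∣ orderOf g}

variable {p : ℕ} [Fact p.Prime] {G : Type} [Group G]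

/-- The Brauer character of a representation `ρ` of `G` over the algebraic closure `k` of the field
with `p` elements: at a `p`-regular element `g`, which acts diagonalisably, it is the sum of the
lifts `θ x` of the eigenvalues `x` of `ρ g`, each taken as many times as the dimension of its
eigenspace. -/
noncomputable def brauer (θ : (AlgebraicClosure (ZMod p))ˣ →* ℂˣ) {W : Type} [AddCommGroup W]
    [Module (AlgebraicClosure (ZMod p)) W]
    (ρ : Representation (AlgebraicClosure (ZMod p)) G W) : Reg p G → ℂ := fun g =>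
  ∑ᶠ x : (AlgebraicClosure (ZMod p))ˣ,
    (Module.finrank (AlgebraicClosure (ZMod p))
      (Module.End.eigenspace (ρ g.1) (x : AlgebraicClosure (ZMod p))) : ℂ) * ((θ x : ℂˣ) : ℂ)

/-- The ordinary irreducible characters of `G`. -/
def Irr (G : Type) [Group G] : Set (G → ℂ) :=
  {χ | ∃ (V : Type) (_ : AddCommGroup V) (_ : Module ℂ V) (_ : FiniteDimensional ℂ V)
    (ρ : Representation ℂ G V), ρ.IsIrreducible ∧ χ = ρ.character}

/-- The irreducible Brauer characters of `G`. -/
def IBr (θ : (AlgebraicClosure (ZMod p))ˣ →* ℂˣ) (G : Type) [Group G] : Set (Reg p G → ℂ) :=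
  {φ | ∃ (W : Type) (_ : AddCommGroup W) (_ : Module (AlgebraicClosure (ZMod p)) W)
    (_ : FiniteDimensional (AlgebraicClosure (ZMod p)) W)
    (ρ : Representation (AlgebraicClosure (ZMod p)) G W), ρ.IsIrreducible ∧ φ = brauer θ ρ}

/-- `d` is the row of the decomposition matrix which belongs to the character `χ`: the
restriction of `χ` to the `p`-regular elements is the sum of the `d φ * φ`, where `φ` runs through
irreducible Brauer characters. (As these are linearly independent, there is at most one `d`.) -/
def IsRow (θ : (AlgebraicClosure (ZMod p))ˣ →* ℂˣ) (χ : G → ℂ) (d : (Reg p G → ℂ) →₀ ℕ) : Prop :=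
  (∀ φ ∈ d.support, φ ∈ IBr θ G) ∧
    ∀ g : Reg p G, χ g.1 = d.sum (fun φ n => (n : ℂ) * φ g)

/-- Two Brauer characters are linked if both are constituents of one ordinary irreducible
character. -/
def Linked (θ : (AlgebraicClosure (ZMod p))ˣ →* ℂˣ) (φ ψ : Reg p G → ℂ) : Prop :=
  ∃ χ ∈ Irr G, ∃ d, IsRow θ χ d ∧ d φ ≠ 0 ∧ d ψ ≠ 0

/-- `B` is the set `IBr(B)` of a `p`-block of `G`: a connected component of the set of irreducible
Brauer characters with respect to linking. -/
def IsBlock (θ : (AlgebraicClosure (ZMod p))ˣ →* ℂˣ) (B : Set (Reg p G → ℂ)) : Prop :=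
  ∃ φ ∈ IBr θ G, B = {ψ | ψ ∈ IBr θ G ∧ Relation.ReflTransGen (Linked θ) φ ψ}

/-- The set `Irr(B)` of a block with the set `B` of irreducible Brauer characters. -/
def IrrB (θ : (AlgebraicClosure (ZMod p))ˣ →* ℂˣ) (B : Set (Reg p G → ℂ)) : Set (G → ℂ) :=
  {χ | χ ∈ Irr G ∧ ∃ d, IsRow θ χ d ∧ ∃ φ ∈ B, d φ ≠ 0}

/-- The decomposition matrix of the block is unitriangular: there are distinct ordinary irreducible
characters `X i` of the block, as many as irreducible Brauer characters, and an ordering `Φ i` of
the latter such that the decomposition numbers satisfy `d (X i) (Φ i) = 1` and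
`d (X i) (Φ j) = 0` for `j > i`. -/
def IsUnitriangular (θ : (AlgebraicClosure (ZMod p))ˣ →* ℂˣ) (B : Set (Reg p G → ℂ)) : Prop :=
  ∃ (n : ℕ) (X : Fin n → G → ℂ) (Φ : Fin n → Reg p G → ℂ), Function.Injective X ∧
    Function.Injective Φ ∧ (∀ i, X i ∈ IrrB θ B) ∧ Set.range Φ = B ∧
      ∀ i, ∃ d, IsRow θ (X i) d ∧ d (Φ i) = 1 ∧ ∀ j, i < j → d (Φ j) = 0

end Pool.Agent.X13.SL.Dec
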