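import Pool.Agent.X13.SL.Vec

set_option autoImplicit false

/-!
# Complex representations of `SL_2(F)`, `|F| = 9`, with `-1` acting as `-1`
-/

namespace Pool.Agent.X13.SL

open Matrix Finset Module

variable {F : Type} [Field F] [Fintype F]
variable {V : Type} [AddCommGroup V] [Module ℂ V]
variable (ρ : Representation ℂ (SpecialLinearGroup (Fin 2) F) V)

/-- `∑ u(c)` -/
noncomputable def E0 : V →ₗ[ℂ] V := ∑ c : F, (ρ (u c) : V →ₗ[ℂ] V)

theorem E0_apply (y : V) : E0 ρ y = ∑ c : F, ρ (u c) y := by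
  unfold E0; rw [LinearMap.sum_apply]

theorem u_E0 (b : F) (y : V) : ρ (u b) (E0 ρ y) = E0 ρ y := by
  rw [E0_apply, map_sum]
  refine Fintype.sum_equiv (Equiv.addLeft b) _ _ (fun c => ?_)
  have he : (Equiv.addLeft b) c = b + c := rfl
  rw [he, comp_apply, u_mul]

theorem E0_u' (b : F) (y : V) : E0 ρ (ρ (u b) y) = E0 ρ y := by
  rw [E0_apply, E0_apply]
  refine Fintype.sum_equiv (Equiv.addRight b) _ _ (fun c => ?_)
  have he : (Equiv.addRight b) c = c + b := rfl
  rw [he, comp_apply, u_mul]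

theorem h_E0 (a : Fˣ) (y : V) : ρ (h a) (E0 ρ y) = E0 ρ (ρ (h a) y) := by
  rw [E0_apply, E0_apply, map_sum]
  have ha : (a : F) ^ 2 ≠ 0 := pow_ne_zero _ a.ne_zero
  refine Fintype.sum_equiv (Equiv.mulLeft₀ ((a : F) ^ 2) ha) _ _ (fun c => ?_)
  have he : (Equiv.mulLeft₀ ((a : F) ^ 2) ha) c = (a : F) ^ 2 * c := rfl
  rw [he, comp_apply, comp_apply, h_u]

/-- If the unipotent subgroup has no fixed vector then the trace of `h ζ` vanishes. -/
theorem trace_zero (hF : Fintype.card F = 9) [FiniteDimensional ℂ V] (hE : E0 ρ = 0) (ζ : Fˣ)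
    (hζ : (ζ : F) ^ 2 ≠ 1) : ρ.character (h ζ) = 0 := by
  have h1 : ∀ c : F, ρ.character (h ζ * u c) = ρ.character (h ζ) := by
    intro c
    set d : F := (ζ : F) ^ 2 * c / (1 - (ζ : F) ^ 2) with hd
    have hne : (1 : F) - (ζ : F) ^ 2 ≠ 0 := fun h0 => hζ (sub_eq_zero.1 h0).symm
    have h2 : h ζ * u c = u d * (h ζ * u (-d)) := by
      rw [h_u, h_u, ← mul_assoc, u_mul]
      congr 2
      rw [hd]; field_simp; ring
    rw [h2, Representation.char_mul_comm, mul_assoc, u_mul, neg_add_cancel, u_zero, mul_one]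
  have h3 : ∑ c : F, ρ.character (h ζ * u c) = 0 := by
    have h4 : ∀ c : F, ρ.character (h ζ * u c) =
        LinearMap.trace ℂ V ((ρ (h ζ) : V →ₗ[ℂ] V) ∘ₗ (ρ (u c) : V →ₗ[ℂ] V)) := by
      intro c
      unfold Representation.character
      rw [map_mul]; rfl
    rw [Finset.sum_congr rfl (fun c _ => h4 c), ← map_sum]
    have h5 : ∑ c : F, (ρ (h ζ) : V →ₗ[ℂ] V) ∘ₗ (ρ (u c) : V →ₗ[ℂ] V) =
        (ρ (h ζ) : V →ₗ[ℂ] V) ∘ₗ E0 ρ := by
      ext y
      rw [LinearMap.sum_apply, LinearMap.comp_apply, E0_apply, map_sum]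
      rfl
    rw [h5, hE, LinearMap.comp_zero, map_zero]
  rw [Finset.sum_congr rfl (fun c _ => h1 c), Finset.sum_const, Finset.card_univ, hF] at h3
  simpa using h3

/-- If the unipotent subgroup has a fixed vector then the dimension is at least 10. -/
theorem dim_ge (hF : Fintype.card F = 9) [FiniteDimensional ℂ V]
    (hodd : ∀ y : V, ρ (-1) y = -y) (hE : E0 ρ ≠ 0) (ζ : Fˣ) (hζ4 : ζ ^ 4 = -1)
    (hζ : ∀ a : Fˣ, ∃ n : ℕ, a = ζ ^ n) : 10 ≤ finrank ℂ V := by
  classical
  -- a weight vector in the range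
  set S := LinearMap.range (E0 ρ) with hS
  have hSne : S ≠ ⊥ := by
    intro h0
    exact hE (LinearMap.range_eq_bot.1 h0)
  haveI : Nontrivial S := Submodule.nontrivial_iff_ne_bot.2 hSne
  have hst : ∀ y ∈ S, (ρ (h ζ) : V →ₗ[ℂ] V) y ∈ S := by
    rintro _ ⟨y, rfl⟩
    exact ⟨ρ (h ζ) y, (h_E0 ρ ζ y).symm⟩
  obtain ⟨μ, hμ⟩ := Module.End.exists_eigenvalue ((ρ (h ζ) : V →ₗ[ℂ] V).restrict hst)
  obtain ⟨⟨v, hvS⟩, hv⟩ := hμ.exists_hasEigenvector
  have hv0 : v ≠ 0 := fun h0 => hv.2 (Subtype.ext h0)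
  have hv1 : ρ (h ζ) v = μ • v := by
    have := hv.apply_eq_smul
    exact congrArg Subtype.val this
  have hU : ∀ c, ρ (u c) v = v := by
    intro c
    obtain ⟨y, rfl⟩ := hvS
    exact u_E0 ρ c y
  have hvn : ∀ n : ℕ, ρ (h (ζ ^ n)) v = μ ^ n • v := by
    intro n
    induction n with
    | zero => simp [h_one]
    | succ n ih => rw [pow_succ, ← h_mul, ← comp_apply, hv1, map_smul, ih, smul_smul, pow_succ, mul_comm]
  have hμ4 : μ ^ 4 = -1 := by
    have h1 := hvn 4
    rw [hζ4, h_neg_one, hodd] at h1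
    have h2 : (μ ^ 4 + 1) • v = 0 := by rw [add_smul, ← h1, one_smul, neg_add_cancel]
    rcases smul_eq_zero.1 h2 with h3 | h3
    · exact eq_neg_of_add_eq_zero_left h3
    · exact absurd h3 hv0
  have hlam : ∀ a : Fˣ, ∃ l : ℂ, ρ (h a) v = l • v := by
    intro a
    obtain ⟨n, rfl⟩ := hζ a
    exact ⟨_, hvn n⟩
  choose lam hlam using hlam
  have hlam_mul : ∀ a b, lam (a * b) = lam a * lam b := by
    intro a b
    have h1 := hlam (a * b)
    rw [← h_mul, ← comp_apply, hlam b, map_smul, hlam a, smul_smul, mul_comm] at h1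
    exact (smul_left_injective ℂ hv0 h1).symm
  have hlam_one : lam 1 = 1 := by
    have h1 := hlam 1
    rw [h_one] at h1
    simp only [map_one, Module.End.one_apply] at h1
    have : (1 : ℂ) • v = lam 1 • v := by rw [one_smul]; exact h1
    exact (smul_left_injective ℂ hv0 this).symm
  have hlam_ne : ∀ a, lam a ≠ 0 := by
    intro a h0
    have := hlam_mul a a⁻¹
    rw [mul_inv_cancel, hlam_one, h0, zero_mul] at this
    exact one_ne_zero this
  -- the functional
  obtain ⟨ℓ, hℓ⟩ : ∃ ℓ : V →ₗ[ℂ] ℂ, ℓ v ≠ 0 := by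
    by_contra hcon
    push Not at hcon
    exact hv0 ((Module.forall_dual_apply_eq_zero_iff ℂ v).1 (fun φ => hcon φ))
  set f : V →ₗ[ℂ] ℂ := ∑ a : Fˣ, (lam a)⁻¹ • (ℓ ∘ₗ (ρ (h a) : V →ₗ[ℂ] V) ∘ₗ E0 ρ) with hf
  have hfx : ∀ x, f x = ∑ a : Fˣ, (lam a)⁻¹ * ℓ (ρ (h a) (E0 ρ x)) := by
    intro x
    rw [hf, LinearMap.sum_apply]
    rfl
  have hfu : ∀ c x, f (ρ (u c) x) = f x := by
    intro c x
    rw [hfx, hfx, E0_u']
  have hfh : ∀ b x, f (ρ (h b) x) = lam b * f x := by
    intro b x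
    rw [hfx, hfx, Finset.mul_sum]
    refine Fintype.sum_equiv (Equiv.mulRight b) _ _ (fun a => ?_)
    have he : (Equiv.mulRight b) a = a * b := rfl
    rw [he, ← h_E0, comp_apply, h_mul, hlam_mul]
    have := hlam_ne a
    have := hlam_ne b
    field_simp
  have hfv : f v ≠ 0 := by
    rw [hfx]
    have h1 : E0 ρ v = (9 : ℂ) • v := by
      rw [E0_apply, Finset.sum_congr rfl (fun c _ => hU c), Finset.sum_const, Finset.card_univ, hF]
      rw [← Nat.cast_smul_eq_nsmul ℂ]
      norm_num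
    have h2 : ∀ a : Fˣ, (lam a)⁻¹ * ℓ (ρ (h a) (E0 ρ v)) = 9 * ℓ v := by
      intro a
      rw [h1, map_smul, hlam, map_smul, map_smul, smul_eq_mul, smul_eq_mul]
      have := hlam_ne a
      field_simp
    rw [Finset.sum_congr rfl (fun a _ => h2 a), Finset.sum_const, nsmul_eq_mul]
    refine mul_ne_zero ?_ (mul_ne_zero (by norm_num) hℓ)
    have : 0 < (univ : Finset Fˣ).card := Finset.card_pos.2 ⟨1, Finset.mem_univ _⟩
    exact_mod_cast this.ne'
  have hfw : f (ρ w v) = 0 := by
    have h1 := hfh ζ (ρ w v)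
    have h2 : ρ (h ζ) (ρ w v) = lam ζ⁻¹ • ρ w v := by
      rw [comp_apply, h_w, ← comp_apply, hlam, map_smul]
    rw [h2, map_smul, smul_eq_mul] at h1
    have h3 : lam ζ = μ := by
      have := hlam ζ
      rw [hv1] at this
      exact (smul_left_injective ℂ hv0 this).symm
    have h4 : lam ζ⁻¹ * μ = 1 := by
      rw [← h3, ← hlam_mul, inv_mul_cancel, hlam_one]
    rw [h3] at h1
    have h5 : (μ ^ 2 - 1) * f (ρ w v) = 0 := by
      linear_combination (-μ) * h1 + f (ρ w v) * h4
    rcases mul_eq_zero.1 h5 with h6 | h6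
    · exfalso
      have h7 : μ ^ 2 = 1 := by linear_combination h6
      have h8 : μ ^ 4 = 1 := by
        calc μ ^ 4 = (μ ^ 2) ^ 2 := by ring
          _ = 1 := by rw [h7]; norm_num
      rw [hμ4] at h8
      norm_num at h8
    · exact h6
  -- independence
  let b : Option F → V := fun o => o.elim v (fun c => ρ (u c) (ρ w v))
  have hind : LinearIndependent ℂ b := by
    rw [Fintype.linearIndependent_iff]
    intro g hg
    rw [Fintype.sum_option] at hg
    have hg' : g none • v + ∑ c : F, g (some c) • ρ (u c) (ρ w v) = 0 := hg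
    have hsome : ∀ d : F, g (some d) = 0 := by
      intro d
      have h1 := congrArg (fun x => f (ρ w (ρ (u (-d)) x))) hg'
      simp only [map_add, map_sum, map_smul, map_zero, hU, hfw, smul_zero, zero_add] at h1
      have h2 : ∀ c : F, g (some c) • f (ρ w (ρ (u (-d)) (ρ (u c) (ρ w v)))) =
          if c = d then - (g (some d) * f v) else 0 := by
        intro c
        have h3 : ρ (u (-d)) (ρ (u c) (ρ w v)) = ρ (u (c - d)) (ρ w v) := by
          rw [comp_apply, u_mul]
          congr 3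
          ring
        rw [h3]
        by_cases hcd : c = d
        · rw [if_pos hcd, hcd, sub_self, u_zero]
          simp only [map_one, Module.End.one_apply]
          rw [comp_apply, w_w, hodd, map_neg, smul_eq_mul]
          ring
        · rw [if_neg hcd]
          have hne : c - d ≠ 0 := sub_ne_zero.2 hcd
          have h4 := w_u_w (Units.mk0 (c - d) hne)
          rw [Units.val_mk0] at h4
          rw [comp_apply, comp_apply, h4, mul_assoc, mul_assoc, ← comp_apply, ← comp_apply,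
            ← comp_apply, hU, hfu, hfh, hfw, mul_zero, smul_zero]
      rw [Finset.sum_congr rfl (fun c _ => h2 c), Finset.sum_ite_eq' univ d] at h1
      simp only [Finset.mem_univ, if_true, neg_eq_zero] at h1
      rcases mul_eq_zero.1 h1 with h | h
      · exact h
      · exact absurd h hfv
    intro o
    cases o with
    | none =>
      have h1 : g none • v = 0 := by
        have : ∑ c : F, g (some c) • ρ (u c) (ρ w v) = 0 :=
          Finset.sum_eq_zero (fun c _ => by rw [hsome c, zero_smul])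
        rw [this, add_zero] at hg'
        exact hg'
      rcases smul_eq_zero.1 h1 with h | h
      · exact h
      · exact absurd h hv0
    | some c => exact hsome c
  have := hind.fintype_card_le_finrank
  rw [Fintype.card_option, hF] at this
  exact this

end Pool.Agent.X13.SL
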