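import Mathlib

set_option autoImplicit false

/-!
# The multiplicative group of an algebraic closure of `F_p` embeds into `ℂˣ`
-/

namespace Pool.Agent.X13.SL

open WittVector

variable (p : ℕ) [hp : Fact p.Prime]


theorem fin_order (x : (AlgebraicClosure (ZMod p))ˣ) : ∃ n : ℕ, 0 < n ∧ (x : AlgebraicClosure (ZMod p)) ^ n = 1 := by
  have hint : IsIntegral (ZMod p) (x : AlgebraicClosure (ZMod p)) :=
    Algebra.IsIntegral.isIntegral _
  have : FiniteDimensional (ZMod p)
      (IntermediateField.adjoin (ZMod p) {(x : AlgebraicClosure (ZMod p))}) :=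
    IntermediateField.adjoin.finiteDimensional hint
  have : Finite (IntermediateField.adjoin (ZMod p) {(x : AlgebraicClosure (ZMod p))}) :=
    Module.finite_of_finite (ZMod p)
  let y : IntermediateField.adjoin (ZMod p) {(x : AlgebraicClosure (ZMod p))} :=
    ⟨x, IntermediateField.mem_adjoin_simple_self _ _⟩
  have hy : y ≠ 0 := by
    intro h0
    exact x.ne_zero (congrArg Subtype.val h0)
  have h1 := isOfFinOrder_of_finite (Units.mk0 y hy)
  rw [isOfFinOrder_iff_pow_eq_one] at h1
  obtain ⟨n, hn, h2⟩ := h1
  refine ⟨n, hn, ?_⟩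
  have h3 : y ^ n = 1 := by
    have := congrArg Units.val h2
    simpa using this
  exact congrArg Subtype.val h3

theorem charZeroW : CharZero (WittVector p (AlgebraicClosure (ZMod p))) := by
  obtain ⟨q, hq⟩ := CharP.exists (WittVector p (AlgebraicClosure (ZMod p)))
  rcases CharP.char_is_prime_or_zero (WittVector p (AlgebraicClosure (ZMod p))) q with h | h
  · exfalso
    have h1 : ((q : ℕ) : WittVector p (AlgebraicClosure (ZMod p))) = 0 := CharP.cast_eq_zero _ q
    have h2 : ((q : ℕ) : AlgebraicClosure (ZMod p)) = 0 := by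
      have h5 := congrArg (WittVector.constantCoeff : WittVector p (AlgebraicClosure (ZMod p)) →+* _) h1
      rw [map_natCast, map_zero] at h5
      exact h5
    have h3 : p ∣ q := (CharP.cast_eq_zero_iff (AlgebraicClosure (ZMod p)) p q).1 h2
    have h4 : p = q := (Nat.prime_dvd_prime_iff_eq hp.out h).1 h3
    rw [← h4] at h1
    exact WittVector.p_nonzero p (AlgebraicClosure (ZMod p)) h1
  · subst h
    exact CharP.charP_to_charZero _

theorem exists_theta : ∃ θ : (AlgebraicClosure (ZMod p))ˣ →* ℂˣ, Function.Injective θ := by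
  have := charZeroW p
  have : CharZero (FractionRing (WittVector p (AlgebraicClosure (ZMod p)))) :=
    charZero_of_injective_algebraMap
      (IsFractionRing.injective (WittVector p (AlgebraicClosure (ZMod p)))
        (FractionRing (WittVector p (AlgebraicClosure (ZMod p)))))
  set K := FractionRing (WittVector p (AlgebraicClosure (ZMod p))) with hK
  let τ : AlgebraicClosure (ZMod p) →* K :=
    ((algebraMap (WittVector p (AlgebraicClosure (ZMod p))) K).toMonoidHom).comp (teichmuller p)
  have hτ : Function.Injective τ := by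
    intro x y hxy
    have h1 : teichmuller p x = teichmuller p y :=
      IsFractionRing.injective (WittVector p (AlgebraicClosure (ZMod p))) K hxy
    have h2 := congrArg (fun z => WittVector.coeff z 0) h1
    simpa [teichmuller_coeff_zero] using h2
  have halg : ∀ x : (AlgebraicClosure (ZMod p))ˣ, τ (x : AlgebraicClosure (ZMod p)) ∈ algebraicClosure ℚ K := by
    intro x
    rw [mem_algebraicClosure_iff]
    obtain ⟨n, hn, hx⟩ := fin_order p x
    refine ⟨Polynomial.X ^ n - 1, ?_, ?_⟩
    · have := Polynomial.X_pow_sub_C_ne_zero hn (1 : ℚ)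
      simpa using this
    · rw [map_sub, map_pow, Polynomial.aeval_X, map_one, ← map_pow, hx, map_one, sub_self]
  have : Algebra.IsAlgebraic ℚ (algebraicClosure ℚ K) := algebraicClosure.isAlgebraic ℚ K
  let g : algebraicClosure ℚ K →ₐ[ℚ] ℂ := IsAlgClosed.lift
  let f : (AlgebraicClosure (ZMod p))ˣ →* ℂ :=
    { toFun := fun x => g ⟨τ (x : AlgebraicClosure (ZMod p)), halg x⟩
      map_one' := by
        have : (⟨τ ((1 : (AlgebraicClosure (ZMod p))ˣ) : AlgebraicClosure (ZMod p)), halg 1⟩ :
            algebraicClosure ℚ K) = 1 := by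
          apply Subtype.ext
          show τ ((1 : (AlgebraicClosure (ZMod p))ˣ) : AlgebraicClosure (ZMod p)) = 1
          rw [Units.val_one, map_one]
        rw [this, map_one]
      map_mul' := fun x y => by
        have : (⟨τ ((x * y : (AlgebraicClosure (ZMod p))ˣ) : AlgebraicClosure (ZMod p)), halg (x * y)⟩ :
            algebraicClosure ℚ K) = ⟨τ (x : AlgebraicClosure (ZMod p)), halg x⟩ *
              ⟨τ (y : AlgebraicClosure (ZMod p)), halg y⟩ := by
          apply Subtype.ext
          show τ ((x * y : (AlgebraicClosure (ZMod p))ˣ) : AlgebraicClosure (ZMod p)) = τ (x : AlgebraicClosure (ZMod p)) * τ (y : AlgebraicClosure (ZMod p))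
          rw [Units.val_mul, map_mul]
        rw [this, map_mul] }
  refine ⟨f.toHomUnits, ?_⟩
  intro x y hxy
  have h1 : f x = f y := by
    have := congrArg Units.val hxy
    simpa using this
  have h2 : (⟨τ (x : AlgebraicClosure (ZMod p)), halg x⟩ : algebraicClosure ℚ K) =
      ⟨τ (y : AlgebraicClosure (ZMod p)), halg y⟩ := g.toRingHom.injective h1
  have h3 := hτ (congrArg Subtype.val h2)
  exact Units.ext h3

end Pool.Agent.X13.SL
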