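import Pool.Agent.X13.SL.Simple
import Pool.Agent.X13.SL.Ord
import Pool.Agent.X13.SL.Theta
import Pool.Agent.X13.SL.Defs

set_option autoImplicit false

/-!
# The faithful blocks of `SL_2(9)` at the prime 3
-/

namespace Pool.Agent.X13.SL

open Matrix Finset Module Dec

section general

variable {F : Type} [Field F]

theorem exists_gen [Fintype F] (hF : Fintype.card F = 9) :
    ∃ ζ : Fˣ, ζ ^ 4 = -1 ∧ (∀ a : Fˣ, ∃ n : ℕ, a = ζ ^ n) ∧ ζ ^ 8 = 1 := by
  classical
  obtain ⟨ζ, hζ⟩ := IsCyclic.exists_monoid_generator (α := Fˣ)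
  have hcard : Nat.card Fˣ = 8 := by
    rw [Nat.card_eq_fintype_card, Fintype.card_units, hF]
  have hord : orderOf ζ = 8 := by
    rw [← hcard]
    apply orderOf_eq_card_of_forall_mem_zpowers
    intro x
    obtain ⟨n, hn⟩ := Submonoid.mem_powers_iff _ _ |>.1 (hζ x)
    exact ⟨n, by simpa using hn⟩
  have h8 : ζ ^ 8 = 1 := by rw [← hord]; exact pow_orderOf_eq_one ζ
  refine ⟨ζ, ?_, fun a => ?_, h8⟩
  · have h4 : ζ ^ 4 ≠ 1 := by
      intro h
      have := orderOf_dvd_of_pow_eq_one h
      rw [hord] at this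
      omega
    have h5 : ((ζ : F) ^ 4 - 1) * ((ζ : F) ^ 4 + 1) = 0 := by
      have : (ζ : F) ^ 8 = 1 := by
        have := congrArg Units.val h8
        simpa using this
      linear_combination this
    rcases mul_eq_zero.1 h5 with h | h
    · exfalso
      apply h4
      ext
      simpa using sub_eq_zero.1 h
    · ext
      simpa using eq_neg_of_add_eq_zero_left h
  · obtain ⟨n, hn⟩ := Submonoid.mem_powers_iff _ _ |>.1 (hζ a)
    exact ⟨n, hn.symm⟩

variable {K : Type} [Field K] {V : Type} [AddCommGroup V] [Module K V]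
  {ρ : Representation K (SpecialLinearGroup (Fin 2) F) V}

theorem central (hirr : ρ.IsIrreducible) : (∀ y : V, ρ (-1) y = y) ∨ (∀ y : V, ρ (-1) y = -y) := by
  let S : Submodule K V := LinearMap.ker ((ρ (-1) : V →ₗ[K] V) - LinearMap.id)
  have hS : ∀ y, y ∈ S ↔ ρ (-1) y = y := by
    intro y
    rw [LinearMap.mem_ker, LinearMap.sub_apply, LinearMap.id_apply, sub_eq_zero]
  rcases irr_cases hirr S (fun g y hy => by
    rw [hS] at hy ⊢
    rw [comp_apply, neg_one_mul, ← mul_neg_one, ← comp_apply, hy]) with h | h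
  · right
    intro y
    have h1 : y + ρ (-1) y ∈ S := by
      rw [hS, map_add, comp_apply]
      simp only [mul_neg, mul_one, neg_neg, map_one, Module.End.one_apply]
      rw [add_comm]
    rw [h] at h1
    have h2 := (Submodule.mem_bot K).1 h1
    exact eq_neg_of_add_eq_zero_right h2
  · left
    intro y
    rw [← hS, h]; exact Submodule.mem_top

theorem nontriv (hirr : ρ.IsIrreducible) : Nontrivial V := by
  by_contra hcon
  rw [not_nontrivial_iff_subsingleton] at hcon
  have := hirr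
  have h1 : (⊥ : Subrepresentation ρ) ≠ ⊤ := bot_ne_top
  apply h1
  apply Subrepresentation.toSubmodule_injective
  exact Subsingleton.elim _ _

end general

section reg

variable {F : Type} [Field F]

/-- the element `1` -/
def r1 : Reg 3 (SpecialLinearGroup (Fin 2) F) := ⟨1, by rw [orderOf_one]; norm_num⟩

/-- the element `-1` -/
def rm : Reg 3 (SpecialLinearGroup (Fin 2) F) := ⟨-1, fun h => by
  have h1 : orderOf (-1 : SpecialLinearGroup (Fin 2) F) ∣ 2 :=
    orderOf_dvd_of_pow_eq_one (by rw [neg_one_sq])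
  have := h.trans h1
  omega⟩

/-- the element `h ζ` -/
def rt (ζ : Fˣ) (h8 : ζ ^ 8 = 1) : Reg 3 (SpecialLinearGroup (Fin 2) F) := ⟨h ζ, fun hh => by
  have h1 : orderOf (h ζ : SpecialLinearGroup (Fin 2) F) ∣ 8 :=
    orderOf_dvd_of_pow_eq_one (by rw [h_pow, h8, h_one])
  have := hh.trans h1
  omega⟩

end reg


section brauer

variable {G : Type} [Group G] (θ : (AlgebraicClosure (ZMod 3))ˣ →* ℂˣ) {W : Type} [AddCommGroup W]
    [Module (AlgebraicClosure (ZMod 3)) W]
    (ρ : Representation (AlgebraicClosure (ZMod 3)) G W)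

theorem brauer_scalar (g : Reg 3 G) (c : (AlgebraicClosure (ZMod 3))ˣ)
    (hc : ∀ y, ρ g.1 y = (c : AlgebraicClosure (ZMod 3)) • y) :
    brauer θ ρ g = (finrank (AlgebraicClosure (ZMod 3)) W : ℂ) * ((θ c : ℂˣ) : ℂ) := by
  unfold brauer
  rw [finsum_eq_single _ c]
  · have : Module.End.eigenspace (ρ g.1) (c : AlgebraicClosure (ZMod 3)) = ⊤ := by
      rw [eq_top_iff]
      intro y _
      rw [Module.End.mem_eigenspace_iff]
      exact hc y
    rw [this, finrank_top]
  · intro x hx
    have : Module.End.eigenspace (ρ g.1) (x : AlgebraicClosure (ZMod 3)) = ⊥ := by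
      rw [eq_bot_iff]
      intro y hy
      rw [Module.End.mem_eigenspace_iff, hc] at hy
      have h1 : ((c : AlgebraicClosure (ZMod 3)) - x) • y = 0 := by rw [sub_smul, hy, sub_self]
      rcases smul_eq_zero.1 h1 with h | h
      · exact absurd (Units.ext (sub_eq_zero.1 h)).symm hx
      · exact (Submodule.mem_bot _).2 h
    rw [this, finrank_bot]
    simp

theorem theta_neg_one (hθ : Function.Injective θ) : ((θ (-1) : ℂˣ) : ℂ) = -1 := by
  have h1 : ((θ (-1) : ℂˣ) : ℂ) ^ 2 = 1 := by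
    have : θ (-1) ^ 2 = 1 := by rw [← map_pow, neg_one_sq, map_one]
    have := congrArg Units.val this
    simpa using this
  have h0 : (((θ (-1) : ℂˣ) : ℂ) - 1) * (((θ (-1) : ℂˣ) : ℂ) + 1) = 0 := by linear_combination h1
  rcases mul_eq_zero.1 h0 with h | h
  · exfalso
    have h2 : θ (-1) = θ 1 := by rw [map_one]; exact Units.ext (sub_eq_zero.1 h)
    have h3 := congrArg Units.val (hθ h2)
    simp only [Units.val_neg, Units.val_one] at h3
    have h4 : (2 : AlgebraicClosure (ZMod 3)) = 0 := by linear_combination -h3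
    have h5 : ((2 : ℕ) : AlgebraicClosure (ZMod 3)) = 0 := by exact_mod_cast h4
    rw [CharP.cast_eq_zero_iff (AlgebraicClosure (ZMod 3)) 3] at h5
    omega
  · exact eq_neg_of_add_eq_zero_left h

end brauer

section values

variable {F : Type} [Field F] (θ : (AlgebraicClosure (ZMod 3))ˣ →* ℂˣ)

theorem val_IBr (hθ : Function.Injective θ)
    {φ : Reg 3 (SpecialLinearGroup (Fin 2) F) → ℂ} (hφ : φ ∈ IBr θ (SpecialLinearGroup (Fin 2) F)) :
    ∃ n : ℕ, 0 < n ∧ φ r1 = n ∧ (φ rm = n ∨ φ rm = -n) := by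
  obtain ⟨W, _, _, _, ρ, hirr, rfl⟩ := hφ
  have := nontriv hirr
  refine ⟨finrank (AlgebraicClosure (ZMod 3)) W, finrank_pos, ?_, ?_⟩
  · rw [brauer_scalar θ ρ r1 1 (fun y => by simp [r1])]
    simp
  · rcases central hirr with h | h
    · left
      rw [brauer_scalar θ ρ rm 1 (fun y => by rw [Units.val_one, one_smul]; exact h y)]
      simp
    · right
      rw [brauer_scalar θ ρ rm (-1) (fun y => by
        rw [Units.val_neg, Units.val_one, neg_smul, one_smul]; exact h y), theta_neg_one θ hθ]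
      ring

theorem val_Irr {χ : SpecialLinearGroup (Fin 2) F → ℂ}
    (hχ : χ ∈ Irr (SpecialLinearGroup (Fin 2) F)) :
    ∃ n : ℕ, 0 < n ∧ χ 1 = n ∧ (χ (-1) = n ∨ χ (-1) = -n) := by
  obtain ⟨V, _, _, _, ρ, hirr, rfl⟩ := hχ
  have := nontriv hirr
  refine ⟨finrank ℂ V, finrank_pos, ?_, ?_⟩
  · rw [Representation.char_one]
  · rcases central hirr with h | h
    · left
      have h1 : ρ (-1) = ρ 1 := by
        ext y; rw [h y]; simp
      have h2 : ρ.character (-1) = ρ.character 1 := by
        unfold Representation.character; rw [h1]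
      rw [h2, Representation.char_one]
    · right
      have h1 : ρ (-1) = - ρ 1 := by
        ext y; rw [h y]; simp
      have h2 : ρ.character (-1) = - ρ.character 1 := by
        unfold Representation.character; rw [h1, map_neg]
      rw [h2, Representation.char_one]

/-- A row which meets an odd Brauer character belongs to an odd character. -/
theorem odd_up (hθ : Function.Injective θ) {χ : SpecialLinearGroup (Fin 2) F → ℂ}
    (hχ : χ ∈ Irr (SpecialLinearGroup (Fin 2) F))
    {d : (Reg 3 (SpecialLinearGroup (Fin 2) F) → ℂ) →₀ ℕ} (hd : IsRow θ χ d)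
    {φ : Reg 3 (SpecialLinearGroup (Fin 2) F) → ℂ} (hφ : d φ ≠ 0) (hodd : φ rm = - φ r1) :
    χ (-1) = - χ 1 := by
  obtain ⟨n, hn, h1, h2⟩ := val_Irr hχ
  rcases h2 with h2 | h2
  swap
  · rw [h2, h1]
  exfalso
  have h3 := hd.2 r1
  have h4 := hd.2 rm
  have e1 : (r1 : Reg 3 (SpecialLinearGroup (Fin 2) F)).1 = 1 := rfl
  have e2 : (rm : Reg 3 (SpecialLinearGroup (Fin 2) F)).1 = -1 := rfl
  rw [e1, h1] at h3
  rw [e2, h2] at h4
  have h5 : ∑ ψ ∈ d.support, ((d ψ : ℝ) * ((ψ r1).re - (ψ rm).re)) = 0 := by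
    have h6 : d.sum (fun φ n => (n : ℂ) * φ r1) - d.sum (fun φ n => (n : ℂ) * φ rm) = 0 := by
      rw [← h3, ← h4, sub_self]
    have h7 := congrArg Complex.re h6
    unfold Finsupp.sum at h7
    rw [← Finset.sum_sub_distrib, Complex.re_sum] at h7
    rw [← Complex.zero_re, ← h7]
    refine Finset.sum_congr rfl (fun ψ _ => ?_)
    simp; ring
  have h8 : ∀ ψ ∈ d.support, 0 ≤ (d ψ : ℝ) * ((ψ r1).re - (ψ rm).re) := by
    intro ψ hψ
    obtain ⟨m, hm, h9, h10⟩ := val_IBr θ hθ (hd.1 ψ hψ)
    refine mul_nonneg (Nat.cast_nonneg _) ?_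
    have hm' : (0 : ℝ) < m := by exact_mod_cast hm
    rcases h10 with h10 | h10 <;> rw [h9, h10] <;> simp
  have h11 := (Finset.sum_eq_zero_iff_of_nonneg h8).1 h5 φ (Finsupp.mem_support_iff.2 hφ)
  obtain ⟨m, hm, h9, h10⟩ := val_IBr θ hθ (hd.1 φ (Finsupp.mem_support_iff.2 hφ))
  have hm' : (0 : ℝ) < m := by exact_mod_cast hm
  rw [hodd, h9] at h11
  rcases mul_eq_zero.1 h11 with h | h
  · exact hφ (by exact_mod_cast h)
  · simp at h; linarith

/-- All constituents of an odd character are odd. -/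
theorem odd_down (hθ : Function.Injective θ) {χ : SpecialLinearGroup (Fin 2) F → ℂ}
    {d : (Reg 3 (SpecialLinearGroup (Fin 2) F) → ℂ) →₀ ℕ} (hd : IsRow θ χ d)
    {φ : Reg 3 (SpecialLinearGroup (Fin 2) F) → ℂ} (hφ : d φ ≠ 0) (hodd : χ (-1) = - χ 1) :
    φ rm = - φ r1 := by
  have h3 := hd.2 r1
  have h4 := hd.2 rm
  have e1 : (r1 : Reg 3 (SpecialLinearGroup (Fin 2) F)).1 = 1 := rfl
  have e2 : (rm : Reg 3 (SpecialLinearGroup (Fin 2) F)).1 = -1 := rfl
  rw [e1] at h3
  rw [e2, hodd] at h4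
  have h5 : ∑ ψ ∈ d.support, ((d ψ : ℝ) * ((ψ r1).re + (ψ rm).re)) = 0 := by
    have h6 : d.sum (fun φ n => (n : ℂ) * φ r1) + d.sum (fun φ n => (n : ℂ) * φ rm) = 0 := by
      rw [← h3, ← h4]; ring
    have h7 := congrArg Complex.re h6
    unfold Finsupp.sum at h7
    rw [← Finset.sum_add_distrib, Complex.re_sum] at h7
    rw [← Complex.zero_re, ← h7]
    refine Finset.sum_congr rfl (fun ψ _ => ?_)
    simp; ring
  have h8 : ∀ ψ ∈ d.support, 0 ≤ (d ψ : ℝ) * ((ψ r1).re + (ψ rm).re) := by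
    intro ψ hψ
    obtain ⟨m, hm, h9, h10⟩ := val_IBr θ hθ (hd.1 ψ hψ)
    refine mul_nonneg (Nat.cast_nonneg _) ?_
    have hm' : (0 : ℝ) < m := by exact_mod_cast hm
    rcases h10 with h10 | h10 <;> rw [h9, h10] <;> simp
  have h11 := (Finset.sum_eq_zero_iff_of_nonneg h8).1 h5 φ (Finsupp.mem_support_iff.2 hφ)
  obtain ⟨m, hm, h9, h10⟩ := val_IBr θ hθ (hd.1 φ (Finsupp.mem_support_iff.2 hφ))
  have hm' : (0 : ℝ) < m := by exact_mod_cast hm
  rcases mul_eq_zero.1 h11 with h | h
  · exact absurd (by exact_mod_cast h) hφ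
  · rcases h10 with h10 | h10
    · rw [h9, h10] at h
      simp at h; linarith
    · rw [h9, h10]

end values

section main

variable {F : Type} [Field F] [Fintype F] (θ : (AlgebraicClosure (ZMod 3))ˣ →* ℂˣ)

/-- No odd irreducible character restricts to an irreducible Brauer character. -/
theorem no_lift (hF : Fintype.card F = 9) (ι : F →+* AlgebraicClosure (ZMod 3))
    (hθ : Function.Injective θ) {χ : SpecialLinearGroup (Fin 2) F → ℂ}
    (hχ : χ ∈ Irr (SpecialLinearGroup (Fin 2) F)) (hodd : χ (-1) = - χ 1)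
    {φ : Reg 3 (SpecialLinearGroup (Fin 2) F) → ℂ} (hφ : φ ∈ IBr θ (SpecialLinearGroup (Fin 2) F))
    (heq : ∀ g : Reg 3 (SpecialLinearGroup (Fin 2) F), χ g.1 = φ g) : False := by
  classical
  obtain ⟨ζ, hζ4, hζ, hζ8⟩ := exists_gen hF
  obtain ⟨V, _, _, _, ρ, hirr, rfl⟩ := hχ
  obtain ⟨W, _, _, _, σ, hirrσ, rfl⟩ := hφ
  have hVn := nontriv hirr
  have hWn := nontriv hirrσ
  have hV0 : 0 < finrank ℂ V := finrank_pos
  have hW0 : 0 < finrank (AlgebraicClosure (ZMod 3)) W := finrank_pos
  -- both are odd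
  have hVodd : ∀ y : V, ρ (-1) y = -y := by
    rcases central hirr with h | h
    · exfalso
      have h1 : ρ (-1) = ρ 1 := by ext y; rw [h y]; simp
      have h2 : ρ.character (-1) = ρ.character 1 := by
        unfold Representation.character; rw [h1]
      rw [h2, Representation.char_one] at hodd
      have h3 : (2 : ℂ) * (finrank ℂ V : ℂ) = 0 := by linear_combination hodd
      have h4 : (finrank ℂ V : ℂ) ≠ 0 := by exact_mod_cast hV0.ne'
      exact (mul_ne_zero two_ne_zero h4) h3
    · exact h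
  have hb1 : brauer θ σ r1 = finrank (AlgebraicClosure (ZMod 3)) W := by
    rw [brauer_scalar θ σ r1 1 (fun y => by simp [r1])]; simp
  have hWodd : ∀ y : W, σ (-1) y = -y := by
    rcases central hirrσ with h | h
    · exfalso
      have h2 : brauer θ σ rm = finrank (AlgebraicClosure (ZMod 3)) W := by
        rw [brauer_scalar θ σ rm 1 (fun y => by rw [Units.val_one, one_smul]; exact h y)]
        simp
      have h3 := heq rm
      have h4 := heq r1
      have e1 : (r1 : Reg 3 (SpecialLinearGroup (Fin 2) F)).1 = 1 := rfl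
      have e2 : (rm : Reg 3 (SpecialLinearGroup (Fin 2) F)).1 = -1 := rfl
      rw [e2, hodd, h2] at h3
      rw [e1, hb1] at h4
      rw [h4] at h3
      have h5 : (2 : ℂ) * (finrank (AlgebraicClosure (ZMod 3)) W : ℂ) = 0 := by
        linear_combination -h3
      have h6 : (finrank (AlgebraicClosure (ZMod 3)) W : ℂ) ≠ 0 := by exact_mod_cast hW0.ne'
      exact (mul_ne_zero two_ne_zero h6) h5
    · exact h
  -- dimensions
  have hdim : finrank ℂ V = finrank (AlgebraicClosure (ZMod 3)) W := by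
    have h4 := heq r1
    have e1 : (r1 : Reg 3 (SpecialLinearGroup (Fin 2) F)).1 = 1 := rfl
    rw [e1, hb1, Representation.char_one] at h4
    exact_mod_cast h4
  obtain ⟨hW8, hm⟩ := mults (ι := ι) (ρ := σ) hirrσ hF hWodd ζ hζ4 hζ
  have hE : E0 ρ = 0 := by
    by_contra hE
    have := dim_ge ρ hF hVodd hE ζ hζ4 hζ
    omega
  have hζ2 : (ζ : F) ^ 2 ≠ 1 := by
    intro h
    have h1 : (ζ : F) ^ 4 = -1 := by
      have := congrArg Units.val hζ4
      simpa using this
    have h2 : (ζ : F) ^ 4 = 1 := by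
      calc (ζ : F) ^ 4 = ((ζ : F) ^ 2) ^ 2 := by ring
        _ = 1 := by rw [h, one_pow]
    rw [h2] at h1
    have h3 : (1 : F) = -8 := by linear_combination nine_F hF
    have h4 : (10 : F) = 1 := by linear_combination nine_F hF
    have h5 : (2 : F) = 0 := by linear_combination h1
    have h6 : (1 : F) = 0 := by linear_combination nine_F hF - 4 * h5
    exact one_ne_zero h6
  have htr := trace_zero ρ hF hE ζ hζ2
  have hbt := heq (rt ζ hζ8)
  have e3 : (rt ζ hζ8 : Reg 3 (SpecialLinearGroup (Fin 2) F)).1 = h ζ := rfl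
  rw [e3, htr] at hbt
  -- the eigenvalues
  set z : (AlgebraicClosure (ZMod 3))ˣ := Units.map (ι : F →* AlgebraicClosure (ZMod 3)) ζ with hz
  have hzv : (z : AlgebraicClosure (ZMod 3)) = ι (ζ : F) := rfl
  have hz4 : z ^ 4 = -1 := by
    rw [hz, ← map_pow, hζ4]
    ext
    simp
  have hneg : (-1 : (AlgebraicClosure (ZMod 3))ˣ) ≠ 1 := by
    intro h0
    have h1 := theta_neg_one θ hθ
    rw [h0, map_one, Units.val_one] at h1
    norm_num at h1
  have hzord : orderOf z = 8 := by
    have := orderOf_eq_prime_pow (x := z) (p := 2) (n := 2) (by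
      show z ^ 4 ≠ 1
      rw [hz4]; exact hneg) (by
      show z ^ 8 = 1
      rw [show (8 : ℕ) = 4 * 2 by norm_num, pow_mul, hz4, neg_one_sq])
    exact this
  have hmlt : ∀ j : ℕ, finrank (AlgebraicClosure (ZMod 3))
      (Module.End.eigenspace (σ (h ζ)) ((z ^ j : (AlgebraicClosure (ZMod 3))ˣ) : AlgebraicClosure (ZMod 3))) =
      mlt ι σ ζ j := by
    intro j
    unfold mlt
    rw [Units.val_pow_eq_pow_val, hzv]
  have hsum : brauer θ σ (rt ζ hζ8) = ∑ j ∈ ({1, 3, 5, 7} : Finset ℕ),
      (mlt ι σ ζ j : ℂ) * ((θ z : ℂˣ) : ℂ) ^ j := by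
    unfold brauer
    rw [e3]
    rw [finsum_eq_sum_of_support_subset (s := ({1, 3, 5, 7} : Finset ℕ).image (fun j => z ^ j))]
    · rw [Finset.sum_image]
      · refine Finset.sum_congr rfl (fun j _ => ?_)
        rw [hmlt j, map_pow, Units.val_pow_eq_pow_val]
      · intro a ha b hb hab
        have hab' : z ^ a = z ^ b := hab
        rw [pow_inj_mod, hzord] at hab'
        have ha' : a ∈ ({1, 3, 5, 7} : Finset ℕ) := by exact_mod_cast ha
        have hb' : b ∈ ({1, 3, 5, 7} : Finset ℕ) := by exact_mod_cast hb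
        simp only [Finset.mem_insert, Finset.mem_singleton] at ha' hb'
        omega
    · intro x hx
      rw [Function.mem_support] at hx
      have hne : Module.End.eigenspace (σ (h ζ)) (x : AlgebraicClosure (ZMod 3)) ≠ ⊥ := by
        intro h0
        apply hx
        rw [h0, finrank_bot]; simp
      obtain ⟨y, hy, hy0⟩ := Submodule.exists_mem_ne_zero_of_ne_bot hne
      rw [Module.End.mem_eigenspace_iff] at hy
      have hyn : ∀ n : ℕ, σ (h (ζ ^ n)) y = (x : AlgebraicClosure (ZMod 3)) ^ n • y := by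
        intro n
        induction n with
        | zero => simp [h_one]
        | succ n ih =>
          rw [pow_succ, ← h_mul, ← comp_apply, hy, map_smul, ih, smul_smul, pow_succ, mul_comm]
      have hx4 : (x : AlgebraicClosure (ZMod 3)) ^ 4 = -1 := by
        have h1 := hyn 4
        rw [hζ4, h_neg_one, hWodd] at h1
        have h2 : ((x : AlgebraicClosure (ZMod 3)) ^ 4 + 1) • y = 0 := by
          rw [add_smul, ← h1, one_smul, neg_add_cancel]
        rcases smul_eq_zero.1 h2 with h3 | h3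
        · exact eq_neg_of_add_eq_zero_left h3
        · exact absurd h3 hy0
      have hzk : (z : AlgebraicClosure (ZMod 3)) ^ 4 = -1 := by
        have := congrArg Units.val hz4
        simpa using this
      set X : AlgebraicClosure (ZMod 3) := (x : AlgebraicClosure (ZMod 3)) with hX
      set Z : AlgebraicClosure (ZMod 3) := (z : AlgebraicClosure (ZMod 3)) with hZ
      have h1 : (X - Z) * ((X - Z ^ 5) * ((X - Z ^ 3) * (X - Z ^ 7))) = 0 := by
        have e5 : Z ^ 5 = - Z := by linear_combination Z * hzk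
        have e7 : Z ^ 7 = - Z ^ 3 := by linear_combination Z ^ 3 * hzk
        rw [e5, e7]
        have e6 : Z ^ 6 = - Z ^ 2 := by linear_combination Z ^ 2 * hzk
        linear_combination hx4 - hzk + (Z ^ 2 - X ^ 2) * e6
      rw [Finset.coe_image]
      rcases mul_eq_zero.1 h1 with h | h
      · exact ⟨1, by simp, by
          show z ^ 1 = x
          rw [pow_one]; exact (Units.ext (sub_eq_zero.1 h)).symm⟩
      rcases mul_eq_zero.1 h with h | h
      · exact ⟨5, by simp, by
          apply Units.ext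
          rw [Units.val_pow_eq_pow_val]
          exact (sub_eq_zero.1 h).symm⟩
      rcases mul_eq_zero.1 h with h | h
      · exact ⟨3, by simp, by
          apply Units.ext
          rw [Units.val_pow_eq_pow_val]
          exact (sub_eq_zero.1 h).symm⟩
      · exact ⟨7, by simp, by
          apply Units.ext
          rw [Units.val_pow_eq_pow_val]
          exact (sub_eq_zero.1 h).symm⟩
  set ξ : ℂ := ((θ z : ℂˣ) : ℂ) with hξ
  have hξ4 : ξ ^ 4 = -1 := by
    have h1 : θ z ^ 4 = θ (-1) := by rw [← map_pow, hz4]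
    have h2 := congrArg Units.val h1
    rw [theta_neg_one θ hθ] at h2
    simpa using h2
  rw [hsum] at hbt
  have hbt' : (mlt ι σ ζ 1 : ℂ) * ξ + ((mlt ι σ ζ 3 : ℂ) * ξ ^ 3 + ((mlt ι σ ζ 5 : ℂ) * ξ ^ 5 +
      (mlt ι σ ζ 7 : ℂ) * ξ ^ 7)) = 0 := by
    rw [Finset.sum_insert (by decide), Finset.sum_insert (by decide), Finset.sum_insert (by decide),
      Finset.sum_singleton, pow_one] at hbt
    exact hbt.symm
  have hξ0 : ξ ≠ 0 := by
    intro h0; rw [h0] at hξ4; norm_num at hξ4
  set a : ℤ := (mlt ι σ ζ 1 : ℤ) - mlt ι σ ζ 5 with ha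
  set b : ℤ := (mlt ι σ ζ 3 : ℤ) - mlt ι σ ζ 7 with hb
  have h1 : ξ * ((a : ℂ) + (b : ℂ) * ξ ^ 2) = 0 := by
    rw [ha, hb]
    push_cast
    linear_combination hbt' - ((mlt ι σ ζ 5 : ℂ) * ξ + (mlt ι σ ζ 7 : ℂ) * ξ ^ 3) * hξ4
  have h2 : (a : ℂ) + (b : ℂ) * ξ ^ 2 = 0 := by
    rcases mul_eq_zero.1 h1 with h | h
    · exact absurd h hξ0
    · exact h
  have h3 : ((a ^ 2 + b ^ 2 : ℤ) : ℂ) = 0 := by
    push_cast
    linear_combination ((a : ℂ) - (b : ℂ) * ξ ^ 2) * h2 + (b : ℂ) ^ 2 * hξ4
  have h4 : a ^ 2 + b ^ 2 = 0 := by exact_mod_cast h3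
  have ha0 : a = 0 := by nlinarith [sq_nonneg a, sq_nonneg b]
  have hb0 : b = 0 := by nlinarith [sq_nonneg a, sq_nonneg b]
  rcases hm with hm | hm
  · apply hm; omega
  · apply hm; omega

end main

section natural

variable {F : Type} [Field F] {K : Type} [Field K] (ι : F →+* K)

/-- the natural representation of `SL_2(F)` on `K²` -/
noncomputable def nat : Representation K (SpecialLinearGroup (Fin 2) F) (Fin 2 → K) where
  toFun g := Matrix.mulVecLin ((M g).map ι)
  map_one' := by
    have : M (1 : SpecialLinearGroup (Fin 2) F) = 1 := rfl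
    rw [this, Matrix.map_one _ (map_zero ι) (map_one ι), Matrix.mulVecLin_one]
    rfl
  map_mul' g g' := by
    rw [M_mul, Matrix.map_mul, Matrix.mulVecLin_mul]
    rfl

theorem nat_u (c : F) (y : Fin 2 → K) : nat ι (u c) y = ![y 0 + ι c * y 1, y 1] := by
  show Matrix.mulVecLin ((M (u c)).map ι) y = _
  rw [M_u]
  ext i
  fin_cases i <;> simp [Matrix.mulVec, dotProduct, Fin.sum_univ_two]

theorem nat_w (y : Fin 2 → K) : nat ι w y = ![y 1, -y 0] := by
  show Matrix.mulVecLin ((M w).map ι) y = _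
  rw [M_w]
  ext i
  fin_cases i <;> simp [Matrix.mulVec, dotProduct, Fin.sum_univ_two]

theorem nat_neg (y : Fin 2 → K) : nat ι (-1) y = -y := by
  show Matrix.mulVecLin ((M (-1)).map ι) y = _
  rw [M_neg_one]
  ext i
  fin_cases i <;> simp [Matrix.mulVec, dotProduct, Fin.sum_univ_two]

theorem nat_irr : (nat ι).IsIrreducible := by
  refine { exists_pair_ne := ⟨⊥, ⊤, ?_⟩, eq_bot_or_eq_top := fun T => ?_ }
  · intro h0
    have h1 : (⊥ : Submodule K (Fin 2 → K)) = ⊤ := congrArg Subrepresentation.toSubmodule h0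
    exact bot_ne_top h1
  · by_cases hT : T.toSubmodule = ⊥
    · left
      apply Subrepresentation.toSubmodule_injective
      exact hT
    · right
      apply Subrepresentation.toSubmodule_injective
      show T.toSubmodule = ⊤
      obtain ⟨y, hy, hy0⟩ := Submodule.exists_mem_ne_zero_of_ne_bot hT
      have hst : ∀ g, ∀ x ∈ T.toSubmodule, nat ι g x ∈ T.toSubmodule :=
        fun g x hx => T.apply_mem_toSubmodule g hx
      have he1 : (![1, 0] : Fin 2 → K) ∈ T.toSubmodule := by
        by_cases h1 : y 1 = 0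
        · have h0 : y 0 ≠ 0 := by
            intro h0
            apply hy0
            ext i
            fin_cases i <;> simp [h0, h1]
          have : (![1, 0] : Fin 2 → K) = (y 0)⁻¹ • y := by
            ext i
            fin_cases i <;> simp [h0, h1]
          rw [this]
          exact Submodule.smul_mem _ _ hy
        · have h2 := T.toSubmodule.sub_mem (hst (u 1) y hy) hy
          have : (![1, 0] : Fin 2 → K) = (y 1)⁻¹ • (nat ι (u 1) y - y) := by
            rw [nat_u]
            ext i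
            fin_cases i <;> simp [h1, Matrix.vecHead, Matrix.vecTail]
          rw [this]
          exact Submodule.smul_mem _ _ h2
      have he2 : (![0, 1] : Fin 2 → K) ∈ T.toSubmodule := by
        have h2 := T.toSubmodule.neg_mem (hst w _ he1)
        have : (![0, 1] : Fin 2 → K) = -(nat ι w ![1, 0]) := by
          rw [nat_w]
          ext i
          fin_cases i <;> simp
        rw [this]
        exact h2
      rw [eq_top_iff]
      intro x _
      have : x = x 0 • (![1, 0] : Fin 2 → K) + x 1 • (![0, 1] : Fin 2 → K) := by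
        ext i
        fin_cases i <;> simp
      rw [this]
      exact Submodule.add_mem _ (Submodule.smul_mem _ _ he1) (Submodule.smul_mem _ _ he2)

end natural

section final

variable {F : Type} [Field F] [Fintype F]

/-- The block of the natural representation is not unitriangular. -/
theorem not_unitriangular (hF : Fintype.card F = 9) (ι : F →+* AlgebraicClosure (ZMod 3))
    (θ : (AlgebraicClosure (ZMod 3))ˣ →* ℂˣ) (hθ : Function.Injective θ) :
    ∃ B : Set (Reg 3 (SpecialLinearGroup (Fin 2) F) → ℂ), IsBlock θ B ∧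
      ¬ IsUnitriangular θ B := by
  classical
  set φ0 := brauer θ (nat ι) with hφ0
  have h0 : φ0 ∈ IBr θ (SpecialLinearGroup (Fin 2) F) :=
    ⟨Fin 2 → AlgebraicClosure (ZMod 3), inferInstance, inferInstance, inferInstance, nat ι,
      nat_irr ι, rfl⟩
  have hodd0 : φ0 rm = - φ0 r1 := by
    rw [hφ0, brauer_scalar θ (nat ι) r1 1 (fun y => by simp [r1]),
      brauer_scalar θ (nat ι) rm (-1) (fun y => by
        rw [Units.val_neg, Units.val_one, neg_smul, one_smul]; exact nat_neg ι y),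
      theta_neg_one θ hθ]
    simp
  refine ⟨{ψ | ψ ∈ IBr θ (SpecialLinearGroup (Fin 2) F) ∧ Relation.ReflTransGen (Linked θ) φ0 ψ},
    ⟨φ0, h0, rfl⟩, ?_⟩
  have hoddB : ∀ ψ, Relation.ReflTransGen (Linked θ) φ0 ψ → ψ rm = - ψ r1 := by
    intro ψ hψ
    induction hψ with
    | refl => exact hodd0
    | tail _ hl ih =>
      obtain ⟨χ, hχ, d, hd, h1, h2⟩ := hl
      exact odd_down θ hθ hd h2 (odd_up θ hθ hχ hd h1 ih)
  rintro ⟨n, X, Φ, _, hΦ, hX, hrange, hrow⟩
  have hn : 0 < n := by
    rcases Nat.eq_zero_or_pos n with h | h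
    · subst h
      have : φ0 ∈ Set.range Φ := by
        rw [hrange]; exact ⟨h0, Relation.ReflTransGen.refl⟩
      obtain ⟨i, _⟩ := this
      exact i.elim0
    · exact h
  let i0 : Fin n := ⟨0, hn⟩
  obtain ⟨d, hd, hd1, hd2⟩ := hrow i0
  have hmem : Φ i0 ∈ {ψ | ψ ∈ IBr θ (SpecialLinearGroup (Fin 2) F) ∧
      Relation.ReflTransGen (Linked θ) φ0 ψ} := by
    rw [← hrange]; exact ⟨i0, rfl⟩
  have hχ : X i0 ∈ Irr (SpecialLinearGroup (Fin 2) F) := (hX i0).1
  have hΦ0 : d (Φ i0) ≠ 0 := by rw [hd1]; norm_num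
  have hχodd := odd_up θ hθ hχ hd hΦ0 (hoddB _ hmem.2)
  -- the row has one constituent
  have hsupp : ∀ ψ, d ψ ≠ 0 → ψ = Φ i0 := by
    intro ψ hψ
    have h1 : ψ ∈ {ψ | ψ ∈ IBr θ (SpecialLinearGroup (Fin 2) F) ∧
        Relation.ReflTransGen (Linked θ) φ0 ψ} :=
      ⟨hd.1 ψ (Finsupp.mem_support_iff.2 hψ), hmem.2.tail ⟨X i0, hχ, d, hd, hΦ0, hψ⟩⟩
    rw [← hrange] at h1
    obtain ⟨j, rfl⟩ := h1
    by_cases hj : j = i0
    · rw [hj]
    · exfalso
      apply hψ
      apply hd2
      rw [Fin.lt_def]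
      show 0 < (j : ℕ)
      rcases Nat.eq_zero_or_pos (j : ℕ) with h | h
      · exact absurd (Fin.ext h) hj
      · exact h
  have hdeq : d = Finsupp.single (Φ i0) 1 := by
    ext ψ
    by_cases h : ψ = Φ i0
    · rw [h, hd1, Finsupp.single_eq_same]
    · rw [Finsupp.single_eq_of_ne h]
      by_contra hne
      exact h (hsupp ψ hne)
  refine no_lift θ hF ι hθ hχ hχodd hmem.1 (fun g => ?_)
  rw [hd.2 g, hdeq, Finsupp.sum_single_index (by simp)]
  simp

end final

end Pool.Agent.X13.SL
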