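import Mathlib

set_option autoImplicit false

/-!
# The group `SL_2(F)`: the elements `u c`, `h a`, `w` and their relations
-/

namespace Pool.Agent.X13.SL

open Matrix

variable {F : Type} [Field F]

/-- the upper unitriangular matrix with entry `c` -/
def u (c : F) : SpecialLinearGroup (Fin 2) F := ⟨!![1, c; 0, 1], by simp [Matrix.det_fin_two]⟩

/-- the diagonal matrix with entries `a`, `a⁻¹` -/
def h (a : Fˣ) : SpecialLinearGroup (Fin 2) F :=
  ⟨!![(a : F), 0; 0, ((a⁻¹ : Fˣ) : F)], by simp [Matrix.det_fin_two]⟩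

/-- the matrix with rows `(0, 1)` and `(-1, 0)` -/
def w : SpecialLinearGroup (Fin 2) F := ⟨!![0, 1; -1, 0], by simp [Matrix.det_fin_two]⟩

/-- the underlying matrix -/
def M (g : SpecialLinearGroup (Fin 2) F) : Matrix (Fin 2) (Fin 2) F := g.1

theorem M_mul (g g' : SpecialLinearGroup (Fin 2) F) : M (g * g') = M g * M g' := rfl

theorem M_one : M (1 : SpecialLinearGroup (Fin 2) F) = !![1, 0; 0, 1] :=
  Matrix.one_fin_two

theorem M_neg_one : M (-1 : SpecialLinearGroup (Fin 2) F) = !![-1, 0; 0, -1] := by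
  have : M (-1 : SpecialLinearGroup (Fin 2) F) = -(1 : Matrix (Fin 2) (Fin 2) F) := rfl
  rw [this, Matrix.one_fin_two]
  simp

theorem M_u (c : F) : M (u c) = !![1, c; 0, 1] := rfl

theorem M_h (a : Fˣ) : M (h a) = !![(a : F), 0; 0, ((a⁻¹ : Fˣ) : F)] := rfl

theorem M_w : M (w : SpecialLinearGroup (Fin 2) F) = !![0, 1; -1, 0] := rfl

theorem mext {g g' : SpecialLinearGroup (Fin 2) F} (hh : M g = M g') : g = g' :=
  Subtype.ext hh

omit [Field F] in
theorem mk_eq {a b c d a' b' c' d' : F} (h1 : a = a') (h2 : b = b') (h3 : c = c') (h4 : d = d') :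
    !![a, b; c, d] = !![a', b'; c', d'] := by rw [h1, h2, h3, h4]

theorem u_mul (c d : F) : u c * u d = u (c + d) := by
  apply mext
  rw [M_mul, M_u, M_u, M_u, Matrix.mul_fin_two]
  apply mk_eq <;> ring

theorem u_zero : u (0 : F) = 1 := by
  apply mext
  rw [M_u, M_one]

theorem h_mul (a b : Fˣ) : h a * h b = h (a * b) := by
  apply mext
  rw [M_mul, M_h, M_h, M_h, Matrix.mul_fin_two]
  apply mk_eq <;> simp [mul_comm]

theorem h_one : h (1 : Fˣ) = 1 := by
  apply mext
  rw [M_h, M_one]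
  apply mk_eq <;> simp

theorem h_pow (a : Fˣ) (n : ℕ) : h a ^ n = h (a ^ n) := by
  induction n with
  | zero => simp [h_one]
  | succ n ih => rw [pow_succ, ih, h_mul, pow_succ]

theorem h_u (a : Fˣ) (c : F) : h a * u c = u ((a : F) ^ 2 * c) * h a := by
  have := a.ne_zero
  apply mext
  rw [M_mul, M_mul, M_h, M_u, M_u, Matrix.mul_fin_two, Matrix.mul_fin_two]
  apply mk_eq <;> simp
  field_simp

theorem w_h (a : Fˣ) : w * h a = h a⁻¹ * w := by
  apply mext
  rw [M_mul, M_mul, M_h, M_h, M_w, Matrix.mul_fin_two, Matrix.mul_fin_two]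
  apply mk_eq <;> simp

theorem h_w (a : Fˣ) : h a * w = w * h a⁻¹ := by
  rw [w_h, inv_inv]

theorem w_w : (w : SpecialLinearGroup (Fin 2) F) * w = -1 := by
  apply mext
  rw [M_mul, M_neg_one, M_w, Matrix.mul_fin_two]
  simp

theorem h_neg_one : h (-1 : Fˣ) = -1 := by
  apply mext
  rw [M_h, M_neg_one]
  simp

theorem w_u_w (a : Fˣ) : w * u (a : F) * w =
    u (-((a⁻¹ : Fˣ) : F)) * h (-a⁻¹) * w * u (-((a⁻¹ : Fˣ) : F)) := by
  have := a.ne_zero
  apply mext
  simp only [M_mul, M_h, M_u, M_w, Matrix.mul_fin_two]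
  apply mk_eq <;> simp

/-- `SL_2(F)` is generated by the `u c` and `w`. -/
theorem gen (P : SpecialLinearGroup (Fin 2) F → Prop) (hu : ∀ c, P (u c)) (hw : P w)
    (hm : ∀ g g', P g → P g' → P (g * g')) (g : SpecialLinearGroup (Fin 2) F) : P g := by
  have hh : ∀ a : Fˣ, P (h a) := by
    intro a
    have : h a = u (-(a : F)) * (w * (u (-((a⁻¹ : Fˣ) : F)) * (w * (u (-(a : F)) * (w * (w * w)))))) := by
      have := a.ne_zero
      apply mext
      simp only [M_mul, M_h, M_u, M_w, Matrix.mul_fin_two]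
      apply mk_eq <;> simp
    rw [this]
    exact hm _ _ (hu _) (hm _ _ hw (hm _ _ (hu _) (hm _ _ hw (hm _ _ (hu _) (hm _ _ hw (hm _ _ hw hw))))))
  have hdet : (M g).det = 1 := g.2
  have hg := Matrix.eta_fin_two (M g)
  rw [Matrix.det_fin_two] at hdet
  by_cases hc : M g 1 0 = 0
  · rw [hc, mul_zero, sub_zero] at hdet
    have ha : M g 0 0 ≠ 0 := by
      intro h0; rw [h0, zero_mul] at hdet; exact zero_ne_one hdet
    have : g = h (Units.mk0 _ ha) * u (M g 0 1 / M g 0 0) := by
      apply mext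
      rw [M_mul, M_h, M_u, Matrix.mul_fin_two]
      refine hg.trans ?_
      apply mk_eq
      · simp
      · simp; field_simp
      · simp [hc]
      · simp; exact eq_inv_of_mul_eq_one_right hdet
    rw [this]
    exact hm _ _ (hh _) (hu _)
  · have : g = u (M g 0 0 / M g 1 0) * (h (-(Units.mk0 _ hc)⁻¹) * (w * u (M g 1 1 / M g 1 0))) := by
      apply mext
      simp only [M_mul, M_h, M_u, M_w, Matrix.mul_fin_two]
      refine hg.trans ?_
      apply mk_eq
      · simp; field_simp
      · simp; field_simp; linear_combination -hdet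
      · simp
      · simp; field_simp
    rw [this]
    exact hm _ _ (hu _) (hm _ _ (hh _) (hm _ _ hw (hu _)))

end Pool.Agent.X13.SL
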