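import Pool.Agent.X13.SL.Grp

set_option autoImplicit false

/-!
# Representations of `SL_2(F)`, `|F| = 9`, in characteristic 3
-/

namespace Pool.Agent.X13.SL

open Matrix Finset

section sums

variable {F : Type} [Field F] [Fintype F]

theorem nine_F (hF : Fintype.card F = 9) : (9 : F) = 0 := by
  have := FiniteField.cast_card_eq_zero F
  rw [hF] at this
  exact_mod_cast this

theorem pow_eight (hF : Fintype.card F = 9) {x : F} (hx : x ≠ 0) : x ^ 8 = 1 := by
  have := FiniteField.pow_card_sub_one_eq_one x hx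
  rwa [hF] at this

theorem sumF (hF : Fintype.card F = 9) (t : ℕ) (ht : t < 16) :
    ∑ a : F, a ^ t = if t = 8 then -1 else 0 := by
  classical
  rcases lt_trichotomy t 8 with h8 | h8 | h8
  · rw [if_neg (by omega)]
    apply FiniteField.sum_pow_lt_card_sub_one
    rw [hF]; omega
  · subst h8
    rw [if_pos rfl]
    have h1 : ∀ a : F, a ^ 8 = if a ≠ 0 then 1 else 0 := by
      intro a
      by_cases ha : a = 0
      · rw [if_neg (by simpa using ha), ha]; simp
      · rw [if_pos ha, pow_eight hF ha]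
    rw [Finset.sum_congr rfl (fun a _ => h1 a), Finset.sum_boole]
    have h2 : (univ.filter (fun a : F => a ≠ 0)).card = 8 := by
      have := Finset.card_erase_of_mem (Finset.mem_univ (0 : F))
      rw [Finset.card_univ, hF] at this
      refine Eq.trans ?_ this
      congr 1
      ext a; simp
    rw [h2]
    have := nine_F hF
    push_cast
    linear_combination this
  · rw [if_neg (by omega)]
    have h1 : ∀ a : F, a ^ t = a ^ (t - 8) := by
      intro a
      by_cases ha : a = 0
      · rw [ha, zero_pow (by omega), zero_pow (by omega)]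
      · have : t = (t - 8) + 8 := by omega
        conv_lhs => rw [this, pow_add, pow_eight hF ha, mul_one]
    rw [Finset.sum_congr rfl (fun a _ => h1 a)]
    apply FiniteField.sum_pow_lt_card_sub_one
    rw [hF]; omega

variable {k : Type} [Field k] (ι : F →+* k)

theorem sumk (hF : Fintype.card F = 9) (t : ℕ) (ht : t < 16) :
    ∑ a : F, (ι a) ^ t = if t = 8 then -1 else 0 := by
  have : ∑ a : F, (ι a) ^ t = ι (∑ a : F, a ^ t) := by
    rw [map_sum]; simp
  rw [this, sumF hF t ht]
  split_ifs <;> simp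

end sums

section E

variable {F : Type} [Field F] [Fintype F] {k : Type} [Field k] (ι : F →+* k)
variable {W : Type} [AddCommGroup W] [Module k W]
variable (ρ : Representation k (SpecialLinearGroup (Fin 2) F) W)

/-- `∑ c^s u(c)` -/
noncomputable def E (s : ℕ) (y : W) : W := ∑ c : F, (ι c) ^ s • ρ (u c) y

theorem E_smul (s : ℕ) (b : k) (y : W) : E ι ρ s (b • y) = b • E ι ρ s y := by
  unfold E
  rw [Finset.smul_sum]
  exact Finset.sum_congr rfl (fun c _ => by rw [map_smul, smul_comm])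

theorem E_zero_vec (s : ℕ) : E ι ρ s (0 : W) = 0 := by
  unfold E; simp

theorem u_E (a : F) (s : ℕ) (y : W) : ρ (u a) (E ι ρ s y) =
    ∑ i ∈ range (s + 1), ((s.choose i : k) * (-ι a) ^ (s - i)) • E ι ρ i y := by
  unfold E
  rw [map_sum]
  have h1 : ∀ c : F, ρ (u a) ((ι c) ^ s • ρ (u c) y) = (ι (a + c - a)) ^ s • ρ (u (a + c)) y := by
    intro c
    rw [map_smul, ← u_mul, map_mul, add_sub_cancel_left]
    rfl
  rw [Finset.sum_congr rfl (fun c _ => h1 c)]
  rw [Fintype.sum_equiv (Equiv.addLeft a) (fun c => (ι (a + c - a)) ^ s • ρ (u (a + c)) y)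
    (fun c => (ι (c - a)) ^ s • ρ (u c) y) (fun c => rfl)]
  have h2 : ∀ c : F, (ι (c - a)) ^ s • ρ (u c) y =
      ∑ i ∈ range (s + 1), ((s.choose i : k) * (-ι a) ^ (s - i)) • ((ι c) ^ i • ρ (u c) y) := by
    intro c
    rw [map_sub, sub_eq_add_neg, add_pow, Finset.sum_smul]
    refine Finset.sum_congr rfl (fun i _ => ?_)
    rw [smul_smul]
    congr 1
    ring
  rw [Finset.sum_congr rfl (fun c _ => h2 c), Finset.sum_comm]
  refine Finset.sum_congr rfl (fun i _ => ?_)
  rw [Finset.smul_sum]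

theorem E_E (hF : Fintype.card F = 9) (m s : ℕ) (hm : 1 ≤ m) (hms : m ≤ s) (hs : s ≤ 8) (y : W) :
    E ι ρ (8 - m) (E ι ρ s y) = (-((-1) ^ m * (s.choose m : k))) • E ι ρ (s - m) y := by
  conv_lhs => unfold E
  have h1 : ∀ c : F, (ι c) ^ (8 - m) • ρ (u c) (∑ c : F, (ι c) ^ s • ρ (u c) y) =
      ∑ i ∈ range (s + 1), ((s.choose i : k) * (-1) ^ (s - i)) •
        ((ι c) ^ (8 - m + (s - i)) • E ι ρ i y) := by
    intro c
    have := u_E ι ρ c s y
    conv_lhs at this => unfold E
    rw [this, Finset.smul_sum]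
    refine Finset.sum_congr rfl (fun i _ => ?_)
    rw [smul_smul, smul_smul]
    congr 1
    rw [neg_pow (ι c), pow_add]
    ring
  rw [Finset.sum_congr rfl (fun c _ => h1 c), Finset.sum_comm]
  have h2 : ∀ i ∈ range (s + 1), ∑ c : F, ((s.choose i : k) * (-1) ^ (s - i)) •
        ((ι c) ^ (8 - m + (s - i)) • E ι ρ i y) =
      if i = s - m then (-((-1) ^ m * (s.choose m : k))) • E ι ρ (s - m) y else 0 := by
    intro i hi
    rw [Finset.mem_range] at hi
    rw [← Finset.smul_sum, ← Finset.sum_smul, sumk ι hF _ (by omega)]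
    by_cases hi2 : i = s - m
    · rw [if_pos (by omega), if_pos hi2, hi2, Nat.choose_symm hms, smul_smul]
      congr 1
      have : s - (s - m) = m := by omega
      rw [this]; ring
    · rw [if_neg (by omega), if_neg hi2, zero_smul, smul_zero]
  rw [Finset.sum_congr rfl h2, Finset.sum_ite_eq' (range (s + 1)) (s - m)]
  rw [if_pos (Finset.mem_range.2 (by omega))]

theorem h_E (hF : Fintype.card F = 9) (a : Fˣ) (s : ℕ) (y : W) :
    ρ (h a) (E ι ρ s y) = (ι (a : F)) ^ (6 * s) • E ι ρ s (ρ (h a) y) := by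
  unfold E
  rw [map_sum, Finset.smul_sum]
  have h1 : ∀ c : F, ρ (h a) ((ι c) ^ s • ρ (u c) y) =
      (ι (a : F)) ^ (6 * s) • ((ι ((a : F) ^ 2 * c)) ^ s • ρ (u ((a : F) ^ 2 * c)) (ρ (h a) y)) := by
    intro c
    have h2 : ρ (h a) (ρ (u c) y) = ρ (u ((a : F) ^ 2 * c)) (ρ (h a) y) := by
      rw [← Module.End.mul_apply, ← map_mul, h_u, map_mul]; rfl
    rw [map_smul, h2, smul_smul]
    congr 1
    rw [map_mul, map_pow, mul_pow, ← pow_mul]
    have h3 : (ι (a : F)) ^ 8 = 1 := by
      rw [← map_pow, pow_eight hF a.ne_zero, map_one]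
    have : (ι (a : F)) ^ (6 * s) * ((ι (a : F)) ^ (2 * s) * (ι c) ^ s) =
        ((ι (a : F)) ^ 8) ^ s * (ι c) ^ s := by ring
    rw [this, h3, one_pow, one_mul]
  rw [Finset.sum_congr rfl (fun c _ => h1 c)]
  have ha : (a : F) ^ 2 ≠ 0 := pow_ne_zero _ a.ne_zero
  exact Fintype.sum_equiv (Equiv.mulLeft₀ ((a : F) ^ 2) ha) _ _ (fun c => rfl)

end E

end Pool.Agent.X13.SL
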