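import Pool.Agent.X13.SL.Vec

set_option autoImplicit false

/-!
# Simple modules of `SL_2(F)`, `|F| = 9`, in characteristic 3, with `-1` acting as `-1`
-/

namespace Pool.Agent.X13.SL

open Matrix Finset Module

variable {F : Type} [Field F] [Fintype F] {k : Type} [Field k] {ι : F →+* k}
variable {W : Type} [AddCommGroup W] [Module k W]
variable {ρ : Representation k (SpecialLinearGroup (Fin 2) F) W}

omit [Fintype F] in
theorem irr_cases (hirr : ρ.IsIrreducible) (S : Submodule k W)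
    (hS : ∀ g, ∀ y ∈ S, ρ g y ∈ S) : S = ⊥ ∨ S = ⊤ := by
  let T : Subrepresentation ρ := ⟨S, fun g y hy => hS g y hy⟩
  have := hirr
  rcases eq_bot_or_eq_top T with h | h
  · left
    have := congrArg Subrepresentation.toSubmodule h
    exact this
  · right
    have := congrArg Subrepresentation.toSubmodule h
    exact this

omit [Fintype F] in
theorem stable_of (S : Submodule k W) (hu : ∀ c, ∀ y ∈ S, ρ (u c) y ∈ S)
    (hw : ∀ y ∈ S, ρ w y ∈ S) (g : SpecialLinearGroup (Fin 2) F) : ∀ y ∈ S, ρ g y ∈ S := by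
  refine gen (fun g => ∀ y ∈ S, ρ g y ∈ S) hu hw (fun g g' hg hg' y hy => ?_) g
  rw [← comp_apply]
  exact hg _ (hg' _ hy)

/-- the span of some of the `X j` -/
noncomputable def Sp (ι : F →+* k) (ρ : Representation k (SpecialLinearGroup (Fin 2) F) W) (v : W)
    (J : Finset ℕ) : Submodule k W :=
  Submodule.span k (X ι ρ v '' (J : Set ℕ))

theorem mem_Sp {v : W} {J : Finset ℕ} {j : ℕ} (hj : j ∈ J) : X ι ρ v j ∈ Sp ι ρ v J :=
  Submodule.subset_span ⟨j, by exact_mod_cast hj, rfl⟩

theorem Sp_stable [CharP k 3] (hF : Fintype.card F = 9) {v : W} {r : ℕ} (hv : HV ι ρ v r)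
    (J Z : Finset ℕ) (hZ : ∀ i ∈ Z, X ι ρ v i = 0)
    (h1 : ∀ j ∈ J, ∀ i ∈ range (j + 1), 3 ∣ j.choose i ∨ i ∈ J ∨ i ∈ Z)
    (h2 : ∀ j ∈ J, ∃ t ∈ J, 1 ≤ j ∧ 1 ≤ t ∧ (t + j + r = 8 ∨ t + j + r = 16)) :
    ∀ g, ∀ y ∈ Sp ι ρ v J, ρ g y ∈ Sp ι ρ v J := by
  refine stable_of _ (fun c y hy => ?_) (fun y hy => ?_)
  · refine Submodule.span_induction (p := fun y _ => ρ (u c) y ∈ Sp ι ρ v J) ?_ ?_ ?_ ?_ hy
    · rintro _ ⟨j, hj, rfl⟩
      have hj' : j ∈ J := by exact_mod_cast hj
      show ρ (u c) (X ι ρ v j) ∈ Sp ι ρ v J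
      have hX : X ι ρ v j = E ι ρ j (ρ w v) := rfl
      rw [hX, u_E]
      refine Submodule.sum_mem _ (fun i hi => ?_)
      rcases h1 j hj' i hi with h | h | h
      · have : ((j.choose i : ℕ) : k) = 0 := (CharP.cast_eq_zero_iff k 3 _).2 h
        rw [this, zero_mul, zero_smul]
        exact Submodule.zero_mem _
      · exact Submodule.smul_mem _ _ (mem_Sp h)
      · have := hZ i h
        unfold X at this
        rw [this, smul_zero]
        exact Submodule.zero_mem _
    · rw [map_zero]; exact Submodule.zero_mem _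
    · intro a b _ _ ha hb
      rw [map_add]; exact Submodule.add_mem _ ha hb
    · intro a b _ hb
      rw [map_smul]; exact Submodule.smul_mem _ _ hb
  · refine Submodule.span_induction (p := fun y _ => ρ w y ∈ Sp ι ρ v J) ?_ ?_ ?_ ?_ hy
    · rintro _ ⟨j, hj, rfl⟩
      have hj' : j ∈ J := by exact_mod_cast hj
      obtain ⟨t, ht, hj1, ht1, hjt⟩ := h2 j hj'
      show ρ w (X ι ρ v j) ∈ Sp ι ρ v J
      rw [w_X hF hv hj1 ht1 hjt]
      exact Submodule.smul_mem _ _ (mem_Sp ht)
    · rw [map_zero]; exact Submodule.zero_mem _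
    · intro a b _ _ ha hb
      rw [map_add]; exact Submodule.add_mem _ ha hb
    · intro a b _ hb
      rw [map_smul]; exact Submodule.smul_mem _ _ hb

/-- minus the projection to the weight `s` -/
noncomputable def Pr (ι : F →+* k) (ρ : Representation k (SpecialLinearGroup (Fin 2) F) W) (s : ℕ) :
    W →ₗ[k] W := by
  classical
  exact ∑ a : Fˣ, (ι (a : F)) ^ (7 * s) • (ρ (h a) : W →ₗ[k] W)

theorem sum_units (hF : Fintype.card F = 9) (n : ℕ) : by
    classical exact (∑ a : Fˣ, (ι (a : F)) ^ n = if 8 ∣ n then (-1 : k) else 0) := by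
  classical
  have h1 := FiniteField.sum_pow_units F n
  rw [hF] at h1
  have h2 : ∑ a : Fˣ, (ι (a : F)) ^ n = ι (∑ a : Fˣ, ((a : F) ^ n)) := by
    rw [map_sum]; simp
  show ∑ a : Fˣ, (ι (a : F)) ^ n = if 8 ∣ n then (-1 : k) else 0
  rw [h2]
  have h3 : ∑ a : Fˣ, ((a : F) ^ n) = if 8 ∣ n then (-1 : F) else 0 := by
    simpa using h1
  rw [h3]
  split_ifs <;> simp

theorem Pr_of (hF : Fintype.card F = 9) {y : W} {n s : ℕ}
    (hy : ∀ a : Fˣ, ρ (h a) y = (ι (a : F)) ^ n • y) :
    Pr ι ρ s y = (if 8 ∣ 7 * s + n then (-1 : k) else 0) • y := by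
  classical
  unfold Pr
  rw [LinearMap.sum_apply]
  have h1 : ∀ a : Fˣ, ((ι (a : F)) ^ (7 * s) • (ρ (h a) : W →ₗ[k] W)) y =
      (ι (a : F)) ^ (7 * s + n) • y := by
    intro a
    rw [LinearMap.smul_apply, hy, smul_smul, pow_add]
  rw [Finset.sum_congr rfl (fun a _ => h1 a), ← Finset.sum_smul]
  have h2 := sum_units (ι := ι) hF (7 * s + n)
  congr 1

theorem Pr_Sp (hF : Fintype.card F = 9) {v : W} {r : ℕ} (hv : HV ι ρ v r) (s : ℕ) (J : Finset ℕ)
    {y : W} (hy : y ∈ Sp ι ρ v J) :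
    Pr ι ρ s y ∈ Sp ι ρ v (J.filter (fun j => 8 ∣ 7 * s + (7 * r + 6 * j))) := by
  refine Submodule.span_induction (p := fun y _ => Pr ι ρ s y ∈
    Sp ι ρ v (J.filter (fun j => 8 ∣ 7 * s + (7 * r + 6 * j)))) ?_ ?_ ?_ ?_ hy
  · rintro _ ⟨j, hj, rfl⟩
    have hj' : j ∈ J := by exact_mod_cast hj
    show Pr ι ρ s (X ι ρ v j) ∈ _
    rw [Pr_of hF (fun a => h_X hF hv a j)]
    by_cases h8 : 8 ∣ 7 * s + (7 * r + 6 * j)
    · exact Submodule.smul_mem _ _ (mem_Sp (Finset.mem_filter.2 ⟨hj', h8⟩))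
    · rw [if_neg h8, zero_smul]; exact Submodule.zero_mem _
  · rw [map_zero]; exact Submodule.zero_mem _
  · intro a b _ _ ha hb
    rw [map_add]; exact Submodule.add_mem _ ha hb
  · intro a b _ hb
    rw [map_smul]; exact Submodule.smul_mem _ _ hb

theorem kill [CharP k 3] (hirr : ρ.IsIrreducible) (hF : Fintype.card F = 9) {v : W} {r : ℕ}
    (hv : HV ι ρ v r) (J Z : Finset ℕ) (hZ : ∀ i ∈ Z, X ι ρ v i = 0)
    (h1 : ∀ j ∈ J, ∀ i ∈ range (j + 1), 3 ∣ j.choose i ∨ i ∈ J ∨ i ∈ Z)
    (h2 : ∀ j ∈ J, ∃ t ∈ J, 1 ≤ j ∧ 1 ≤ t ∧ (t + j + r = 8 ∨ t + j + r = 16))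
    (h3 : J.filter (fun j => 8 ∣ 7 * r + (7 * r + 6 * j)) = ∅) : ∀ j ∈ J, X ι ρ v j = 0 := by
  rcases irr_cases hirr _ (Sp_stable hF hv J Z hZ h1 h2) with h | h
  · intro j hj
    have := mem_Sp (ι := ι) (ρ := ρ) (v := v) hj
    rw [h] at this
    exact (Submodule.mem_bot k).1 this
  · exfalso
    have h4 : v ∈ Sp ι ρ v J := by rw [h]; exact Submodule.mem_top
    have h5 := Pr_Sp hF hv r J h4
    rw [h3, Pr_of hF hv.hT, if_pos (by omega)] at h5
    unfold Sp at h5
    simp only [Finset.coe_empty, Set.image_empty, Submodule.span_empty, Submodule.mem_bot] at h5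
    simp only [neg_smul, one_smul, neg_eq_zero] at h5
    exact hv.ne h5

theorem desc [CharP k 3] (hF : Fintype.card F = 9) {v : W} {r : ℕ} (hv : HV ι ρ v r) {s m : ℕ}
    {α : k} (hs : X ι ρ v s = α • v) (hm : 1 ≤ m) (hms : m ≤ s) (hs8 : s ≤ 8)
    (hc : ¬ 3 ∣ s.choose m) : X ι ρ v (s - m) = 0 := by
  have h1 := E_E ι ρ hF m s hm hms hs8 (ρ w v)
  have h2 : E ι ρ s (ρ w v) = α • v := hs
  rw [h2, E_smul, E_fix hF hv.hU (by omega), smul_zero] at h1
  rcases smul_eq_zero.1 h1.symm with h | h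
  · exfalso
    have h3 : ((s.choose m : ℕ) : k) ≠ 0 := fun h0 => hc ((CharP.cast_eq_zero_iff k 3 _).1 h0)
    have h4 : (-1 : k) ^ m * (s.choose m : k) = 0 := by simpa using h
    rcases mul_eq_zero.1 h4 with h5 | h5
    · exact (pow_ne_zero m (by norm_num : (-1 : k) ≠ 0)) h5
    · exact h3 h5
  · exact h

theorem top_of [CharP k 3] (hirr : ρ.IsIrreducible) (hF : Fintype.card F = 9)
    (hodd : ∀ y : W, ρ (-1) y = -y) {v : W} {r : ℕ}
    (hv : HV ι ρ v r) (h0 : X ι ρ v 0 = 0) (J : Finset ℕ)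
    (hJ : ∀ j ∈ ({1, 2, 3, 4, 5, 6, 7, 8} : Finset ℕ), j ∈ J ∨ X ι ρ v j = 0) :
    Sp ι ρ v J = ⊤ := by
  have hr1 := hv.r1
  have hr7 := hv.r7
  have h1 : Sp ι ρ v ({1, 2, 3, 4, 5, 6, 7, 8} : Finset ℕ) = ⊤ := by
    rcases irr_cases hirr _ (Sp_stable hF hv ({1, 2, 3, 4, 5, 6, 7, 8} : Finset ℕ) {0}
      (fun i hi => by rw [Finset.mem_singleton.1 hi]; exact h0) (by decide) (by
        intro j hj
        have hj' : 1 ≤ j ∧ j ≤ 8 := by
          simp only [Finset.mem_insert, Finset.mem_singleton] at hj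
          omega
        by_cases hlt : j + r < 8
        · refine ⟨8 - (j + r), ?_, hj'.1, by omega, by omega⟩
          simp only [Finset.mem_insert, Finset.mem_singleton]
          omega
        · refine ⟨16 - (j + r), ?_, hj'.1, by omega, by omega⟩
          simp only [Finset.mem_insert, Finset.mem_singleton]
          omega)) with h | h
    · exfalso
      have h2 : X ι ρ v (8 - r) ∈ Sp ι ρ v ({1, 2, 3, 4, 5, 6, 7, 8} : Finset ℕ) := by
        apply mem_Sp
        simp only [Finset.mem_insert, Finset.mem_singleton]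
        omega
      rw [v_X hF hodd hv h0, h] at h2
      exact hv.ne ((Submodule.mem_bot k).1 h2)
    · exact h
  rw [eq_top_iff, ← h1]
  unfold Sp
  rw [Submodule.span_le]
  rintro _ ⟨j, hj, rfl⟩
  rcases hJ j (by exact_mod_cast hj) with h | h
  · exact mem_Sp h
  · show X ι ρ v j ∈ Sp ι ρ v J
    rw [h]; exact Submodule.zero_mem _

/-- multiplicity of the weight `s` -/
noncomputable def mlt (ι : F →+* k) (ρ : Representation k (SpecialLinearGroup (Fin 2) F) W) (ζ : Fˣ)
    (s : ℕ) : ℕ :=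
  finrank k (Module.End.eigenspace (ρ (h ζ)) ((ι (ζ : F)) ^ s))

theorem eig_weight {ζ : Fˣ} (hζ : ∀ a : Fˣ, ∃ n : ℕ, a = ζ ^ n) {s : ℕ} {y : W}
    (hy : y ∈ Module.End.eigenspace (ρ (h ζ)) ((ι (ζ : F)) ^ s)) (a : Fˣ) :
    ρ (h a) y = (ι (a : F)) ^ s • y := by
  rw [Module.End.mem_eigenspace_iff] at hy
  obtain ⟨n, rfl⟩ := hζ a
  induction n with
  | zero => simp [h_one]
  | succ n ih =>
    rw [pow_succ, ← h_mul, ← comp_apply, hy, map_smul, ih, smul_smul]
    congr 1
    rw [Units.val_mul, map_mul, mul_pow, mul_comm]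

theorem mlt_le [FiniteDimensional k W] (hF : Fintype.card F = 9) {v : W} {r : ℕ}
    (hv : HV ι ρ v r) {J : Finset ℕ} (hJ : Sp ι ρ v J = ⊤) {ζ : Fˣ}
    (hζ : ∀ a : Fˣ, ∃ n : ℕ, a = ζ ^ n) (s : ℕ) :
    mlt ι ρ ζ s ≤ (J.filter (fun j => 8 ∣ 7 * s + (7 * r + 6 * j))).card := by
  classical
  set J' := J.filter (fun j => 8 ∣ 7 * s + (7 * r + 6 * j)) with hJ'
  have h1 : Module.End.eigenspace (ρ (h ζ)) ((ι (ζ : F)) ^ s) ≤ Sp ι ρ v J' := by
    intro y hy
    have h2 := Pr_Sp hF hv s J (y := y) (by rw [hJ]; exact Submodule.mem_top)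
    rw [Pr_of hF (fun a => eig_weight hζ hy a), if_pos (by omega)] at h2
    simp only [neg_smul, one_smul] at h2
    exact (Submodule.neg_mem_iff _).1 h2
  unfold mlt
  refine (Submodule.finrank_mono h1).trans ?_
  unfold Sp
  have h3 : (X ι ρ v '' (J' : Set ℕ)) = ((J'.image (X ι ρ v) : Finset W) : Set W) := by
    rw [Finset.coe_image]
  rw [h3]
  exact (finrank_span_finset_le_card _).trans Finset.card_image_le

theorem v_mem {v : W} {r : ℕ} (hv : HV ι ρ v r) (ζ : Fˣ) :
    v ∈ Module.End.eigenspace (ρ (h ζ)) ((ι (ζ : F)) ^ r) := by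
  rw [Module.End.mem_eigenspace_iff]; exact hv.hT ζ

theorem one_le_mlt [FiniteDimensional k W] {v : W} {r : ℕ} (hv : HV ι ρ v r) (ζ : Fˣ) :
    1 ≤ mlt ι ρ ζ r := by
  unfold mlt
  rw [Nat.one_le_iff_ne_zero]
  intro h
  rw [Submodule.finrank_eq_zero] at h
  have := v_mem hv ζ
  rw [h] at this
  exact hv.ne ((Submodule.mem_bot k).1 this)

theorem two_le_mlt [FiniteDimensional k W] {v y : W} {r : ℕ} (hv : HV ι ρ v r) (ζ : Fˣ)
    (hy : y ∈ Module.End.eigenspace (ρ (h ζ)) ((ι (ζ : F)) ^ r)) (hne : ∀ α : k, y ≠ α • v) :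
    2 ≤ mlt ι ρ ζ r := by
  unfold mlt
  set S := Module.End.eigenspace (ρ (h ζ)) ((ι (ζ : F)) ^ r) with hS
  have h1 : LinearIndependent k ![(⟨v, v_mem hv ζ⟩ : S), ⟨y, hy⟩] := by
    rw [LinearIndependent.pair_iff' (by
      intro h
      exact hv.ne (congrArg Subtype.val h))]
    intro a h
    exact hne a (congrArg Subtype.val h).symm
  have := h1.fintype_card_le_finrank
  simpa using this

/-- The multiplicities of the weights of a simple module. -/
theorem mults [CharP k 3] [IsAlgClosed k] [FiniteDimensional k W] (hirr : ρ.IsIrreducible)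
    (hF : Fintype.card F = 9) (hodd : ∀ y : W, ρ (-1) y = -y) (ζ : Fˣ) (hζ4 : ζ ^ 4 = -1)
    (hζ : ∀ a : Fˣ, ∃ n : ℕ, a = ζ ^ n) :
    finrank k W ≤ 8 ∧ (mlt ι ρ ζ 1 ≠ mlt ι ρ ζ 5 ∨ mlt ι ρ ζ 3 ≠ mlt ι ρ ζ 7) := by
  classical
  haveI : Nontrivial W := by
    by_contra hcon
    rw [not_nontrivial_iff_subsingleton] at hcon
    haveI := hirr
    have h1 : (⊥ : Subrepresentation ρ) ≠ ⊤ := bot_ne_top
    apply h1
    apply Subrepresentation.toSubmodule_injective
    exact Subsingleton.elim _ _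
  obtain ⟨v, r, hv, hr, h0⟩ := exists_v (ι := ι) (ρ := ρ) hF hodd ζ hζ4 hζ
  have hr1 := hv.r1
  have hr7 := hv.r7
  have hvX := v_X hF hodd hv h0
  refine ⟨?_, ?_⟩
  · have htop := top_of hirr hF hodd hv h0 ({1, 2, 3, 4, 5, 6, 7, 8} : Finset ℕ)
      (fun j hj => Or.inl hj)
    rw [← finrank_top k W, ← htop]
    unfold Sp
    have h3 : (X ι ρ v '' (({1, 2, 3, 4, 5, 6, 7, 8} : Finset ℕ) : Set ℕ)) =
        (((({1, 2, 3, 4, 5, 6, 7, 8} : Finset ℕ).image (X ι ρ v)) : Finset W) : Set W) := by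
      rw [Finset.coe_image]
    rw [h3]
    exact (finrank_span_finset_le_card _).trans (Finset.card_image_le.trans (by decide))
  · have hvX' : X ι ρ v (8 - r) = (1 : k) • v := by rw [one_smul, hvX]
    have hcases : r = 1 ∨ r = 3 ∨ r = 5 ∨ r = 7 := by
      rw [Nat.odd_iff] at hr; omega
    rcases hcases with rfl | rfl | rfl | rfl
    · -- r = 1
      left
      have z6 : X ι ρ v 6 = 0 := desc hF hv (m := 1) hvX' (by norm_num) (by norm_num) (by norm_num) (by decide)
      have z4 : X ι ρ v 4 = 0 := desc hF hv (m := 3) hvX' (by norm_num) (by norm_num) (by norm_num) (by decide)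
      have z3 : X ι ρ v 3 = 0 := desc hF hv (m := 4) hvX' (by norm_num) (by norm_num) (by norm_num) (by decide)
      have z1 : X ι ρ v 1 = 0 := desc hF hv (m := 6) hvX' (by norm_num) (by norm_num) (by norm_num) (by decide)
      have hk := kill hirr hF hv {2, 5} {0, 1, 3, 4, 6} (by
        intro i hi
        simp only [Finset.mem_insert, Finset.mem_singleton] at hi
        rcases hi with rfl | rfl | rfl | rfl | rfl <;> assumption) (by decide) (by decide) (by decide)
      have z2 := hk 2 (by decide)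
      have z5 := hk 5 (by decide)
      have htop := top_of hirr hF hodd hv h0 {7, 8} (by
        intro j hj
        simp only [Finset.mem_insert, Finset.mem_singleton] at hj ⊢
        rcases hj with rfl | rfl | rfl | rfl | rfl | rfl | rfl | rfl <;> first
          | (right; assumption)
          | (left; norm_num))
      have h5 := mlt_le hF hv htop hζ 5
      have h6 : (({7, 8} : Finset ℕ).filter (fun j => 8 ∣ 7 * 5 + (7 * 1 + 6 * j))).card = 0 := by decide
      rw [h6] at h5
      have h7 := one_le_mlt hv ζ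
      omega
    · -- r = 3
      right
      have z4 : X ι ρ v 4 = 0 := desc hF hv (m := 1) hvX' (by norm_num) (by norm_num) (by norm_num) (by decide)
      have z3 : X ι ρ v 3 = 0 := desc hF hv (m := 2) hvX' (by norm_num) (by norm_num) (by norm_num) (by decide)
      have z2 : X ι ρ v 2 = 0 := desc hF hv (m := 3) hvX' (by norm_num) (by norm_num) (by norm_num) (by decide)
      have z1 : X ι ρ v 1 = 0 := desc hF hv (m := 4) hvX' (by norm_num) (by norm_num) (by norm_num) (by decide)
      have hk := kill hirr hF hv {6, 7} {0, 1, 2, 3, 4} (by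
        intro i hi
        simp only [Finset.mem_insert, Finset.mem_singleton] at hi
        rcases hi with rfl | rfl | rfl | rfl | rfl <;> assumption) (by decide) (by decide) (by decide)
      have z6 := hk 6 (by decide)
      have z7 := hk 7 (by decide)
      have htop := top_of hirr hF hodd hv h0 {5, 8} (by
        intro j hj
        simp only [Finset.mem_insert, Finset.mem_singleton] at hj ⊢
        rcases hj with rfl | rfl | rfl | rfl | rfl | rfl | rfl | rfl <;> first
          | (right; assumption)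
          | (left; norm_num))
      have h5 := mlt_le hF hv htop hζ 7
      have h6 : (({5, 8} : Finset ℕ).filter (fun j => 8 ∣ 7 * 7 + (7 * 3 + 6 * j))).card = 0 := by decide
      rw [h6] at h5
      have h7 := one_le_mlt hv ζ
      omega
    · -- r = 5
      left
      have hk := kill hirr hF hv {1, 2} {0} (by
        intro i hi
        simp only [Finset.mem_singleton] at hi
        rw [hi]; exact h0) (by decide) (by decide) (by decide)
      have z1 := hk 1 (by decide)
      have z2 := hk 2 (by decide)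
      have htop := top_of hirr hF hodd hv h0 {3, 4, 5, 6, 7, 8} (by
        intro j hj
        simp only [Finset.mem_insert, Finset.mem_singleton] at hj ⊢
        rcases hj with rfl | rfl | rfl | rfl | rfl | rfl | rfl | rfl <;> first
          | (right; assumption)
          | (left; norm_num))
      have h5 := mlt_le hF hv htop hζ 1
      have h6 : (({3, 4, 5, 6, 7, 8} : Finset ℕ).filter
        (fun j => 8 ∣ 7 * 1 + (7 * 5 + 6 * j))).card = 1 := by decide
      rw [h6] at h5
      have h7 : 2 ≤ mlt ι ρ ζ 5 := by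
        refine two_le_mlt (y := X ι ρ v 7) hv ζ ?_ ?_
        · rw [Module.End.mem_eigenspace_iff, h_X hF hv]
          congr 1
          have h8 : (ι (ζ : F)) ^ 8 = 1 := by rw [← map_pow, pow_eight hF ζ.ne_zero, map_one]
          have : 7 * 5 + 6 * 7 = 8 * 9 + 5 := by norm_num
          rw [this, pow_add, pow_mul, h8, one_pow, one_mul]
        · intro α hα
          have z6 : X ι ρ v 6 = 0 := desc hF hv (m := 1) hα (by norm_num) (by norm_num) (by norm_num) (by decide)
          have z3 : X ι ρ v 3 = 0 := desc hF hv (m := 3) (α := 0) (by rw [z6, zero_smul]) (by norm_num) (by norm_num) (by norm_num) (by decide)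
          exact hv.ne (by rw [← hvX]; exact z3)
      omega
    · -- r = 7
      right
      have hk := kill hirr hF hv {3, 6} {0} (by
        intro i hi
        simp only [Finset.mem_singleton] at hi
        rw [hi]; exact h0) (by decide) (by decide) (by decide)
      have z3 := hk 3 (by decide)
      have z6 := hk 6 (by decide)
      have htop := top_of hirr hF hodd hv h0 {1, 2, 4, 5, 7, 8} (by
        intro j hj
        simp only [Finset.mem_insert, Finset.mem_singleton] at hj ⊢
        rcases hj with rfl | rfl | rfl | rfl | rfl | rfl | rfl | rfl <;> first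
          | (right; assumption)
          | (left; norm_num))
      have h5 := mlt_le hF hv htop hζ 3
      have h6 : (({1, 2, 4, 5, 7, 8} : Finset ℕ).filter
        (fun j => 8 ∣ 7 * 3 + (7 * 7 + 6 * j))).card = 1 := by decide
      rw [h6] at h5
      have h7 : 2 ≤ mlt ι ρ ζ 7 := by
        refine two_le_mlt (y := X ι ρ v 5) hv ζ ?_ ?_
        · rw [Module.End.mem_eigenspace_iff, h_X hF hv]
          congr 1
          have h8 : (ι (ζ : F)) ^ 8 = 1 := by rw [← map_pow, pow_eight hF ζ.ne_zero, map_one]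
          have : 7 * 7 + 6 * 5 = 8 * 9 + 7 := by norm_num
          rw [this, pow_add, pow_mul, h8, one_pow, one_mul]
        · intro α hα
          have z2 : X ι ρ v 2 = 0 := desc hF hv (m := 3) hα (by norm_num) (by norm_num) (by norm_num) (by decide)
          have z1 : X ι ρ v 1 = 0 := desc hF hv (m := 1) (α := 0) (by rw [z2, zero_smul]) (by norm_num) (by norm_num) (by norm_num) (by decide)
          exact hv.ne (by rw [← hvX]; exact z1)
      omega

end Pool.Agent.X13.SL
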