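import Pool.Agent.X13.SL.Mod

set_option autoImplicit false

/-!
# The vectors fixed by the unipotent subgroup
-/

namespace Pool.Agent.X13.SL

open Matrix Finset

variable {F : Type} [Field F] [Fintype F] {k : Type} [Field k] (ι : F →+* k)
variable {W : Type} [AddCommGroup W] [Module k W]
variable (ρ : Representation k (SpecialLinearGroup (Fin 2) F) W)

omit [Fintype F] in
theorem comp_apply (g g' : SpecialLinearGroup (Fin 2) F) (y : W) : ρ g (ρ g' y) = ρ (g * g') y := by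
  rw [map_mul]; rfl

/-- `v` is fixed by the `u c` and has weight `r`. -/
structure HV (v : W) (r : ℕ) : Prop where
  ne : v ≠ 0
  r1 : 1 ≤ r
  r7 : r ≤ 7
  hU : ∀ c, ρ (u c) v = v
  hT : ∀ a : Fˣ, ρ (h a) v = (ι (a : F)) ^ r • v

/-- The vectors `∑ c^j u(c) w v`. -/
noncomputable def X (v : W) (j : ℕ) : W := E ι ρ j (ρ w v)

variable {ι ρ}

/-- the action of `w u(c) w` -/
theorem wuw {v : W} {r : ℕ} (hv : HV ι ρ v r) {c : F} (hc : c ≠ 0) :
    ρ w (ρ (u c) (ρ w v)) = (ι (-c)) ^ r • ρ (u (-c⁻¹)) (ρ w v) := by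
  have h1 := w_u_w (Units.mk0 c hc)
  rw [Units.val_mk0] at h1
  rw [comp_apply, comp_apply, h1]
  have h2 : ((((Units.mk0 c hc)⁻¹ : Fˣ)) : F) = c⁻¹ := by simp
  rw [h2, ← comp_apply, hv.hU, mul_assoc, h_w, ← comp_apply, ← comp_apply, hv.hT, map_smul, map_smul]
  congr 3

theorem w_X (hF : Fintype.card F = 9) {v : W} {r : ℕ} (hv : HV ι ρ v r) {j t : ℕ} (hj : 1 ≤ j)
    (ht : 1 ≤ t) (hjt : t + j + r = 8 ∨ t + j + r = 16) :
    ρ w (X ι ρ v j) = (-1 : k) ^ j • X ι ρ v t := by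
  unfold X E
  rw [map_sum, Finset.smul_sum]
  refine Fintype.sum_equiv ((Equiv.inv F).trans (Equiv.neg F)) _ _ (fun c => ?_)
  have he : ((Equiv.inv F).trans (Equiv.neg F)) c = -c⁻¹ := rfl
  rw [he, map_smul]
  by_cases hc : c = 0
  · rw [hc]
    simp [zero_pow (show j ≠ 0 by omega), zero_pow (show t ≠ 0 by omega)]
  · rw [wuw hv hc, smul_smul, smul_smul]
    congr 1
    have hic : ι c ≠ 0 := by simpa using hc
    have h8 : (ι c) ^ 8 = 1 := by rw [← map_pow, pow_eight hF hc, map_one]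
    rw [map_neg, map_neg, map_inv₀, neg_pow (ι c) r, neg_pow ((ι c)⁻¹) t]
    have h3 : (ι c) ^ (t + j + r) = 1 := by
      rcases hjt with h | h
      · rw [h, h8]
      · rw [h, show 16 = 8 * 2 by norm_num, pow_mul, h8, one_pow]
    have h4 : (-1 : k) ^ (t + j + r) = 1 := by
      rcases hjt with h | h
      · rw [h]; norm_num
      · rw [h]; norm_num
    have h5 : ((-1 : k) ^ (t + j)) * (-1 : k) ^ r = 1 := by rw [← pow_add, h4]
    have h6 : ((-1 : k) ^ r) * (-1 : k) ^ r = 1 := by rw [← mul_pow]; simp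
    have h7 : (-1 : k) ^ r = (-1 : k) ^ (t + j) := by
      have : (-1 : k) ^ r ≠ 0 := by
        intro h0; rw [h0, mul_zero] at h6; exact zero_ne_one h6
      exact mul_right_cancel₀ this (h6.trans h5.symm)
    have h8' : (ι c) ^ j * (ι c) ^ r = ((ι c)⁻¹) ^ t := by
      rw [inv_pow]
      apply eq_inv_of_mul_eq_one_left
      rw [← h3]; ring
    calc (ι c) ^ j * ((-1) ^ r * (ι c) ^ r) = (-1) ^ r * ((ι c) ^ j * (ι c) ^ r) := by ring
      _ = (-1) ^ (t + j) * ((ι c)⁻¹) ^ t := by rw [h7, h8']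
      _ = _ := by ring

theorem E_sub (hF : Fintype.card F = 9) (y : W) : E ι ρ 0 y - E ι ρ 8 y = y := by
  classical
  unfold E
  rw [← Finset.sum_sub_distrib]
  have h1 : ∀ c : F, (ι c) ^ 0 • ρ (u c) y - (ι c) ^ 8 • ρ (u c) y = if c = 0 then y else 0 := by
    intro c
    by_cases hc : c = 0
    · rw [if_pos hc, hc, u_zero]; simp
    · have h8 : (ι c) ^ 8 = 1 := by rw [← map_pow, pow_eight hF hc, map_one]
      rw [if_neg hc, h8, pow_zero, sub_self]
  rw [Finset.sum_congr rfl (fun c _ => h1 c), Finset.sum_ite_eq' univ (0 : F)]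
  simp

theorem E0_u (b : F) (y : W) : E ι ρ 0 (ρ (u b) y) = E ι ρ 0 y := by
  unfold E
  refine Fintype.sum_equiv (Equiv.addRight b) _ _ (fun c => ?_)
  have he : (Equiv.addRight b) c = c + b := rfl
  rw [he, comp_apply, u_mul, pow_zero, pow_zero]

theorem E_fix (hF : Fintype.card F = 9) {v : W} (hU : ∀ c, ρ (u c) v = v) {s : ℕ} (hs : s < 8) :
    E ι ρ s v = 0 := by
  unfold E
  rw [Finset.sum_congr rfl (fun c _ => by rw [hU c]), ← Finset.sum_smul, sumk ι hF s (by omega),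
    if_neg (by omega), zero_smul]

theorem w_w_v (hodd : ∀ y : W, ρ (-1) y = -y) (v : W) : ρ w (ρ w v) = -v := by
  rw [comp_apply, w_w, hodd]

theorem w_v (hF : Fintype.card F = 9) {v : W} (h0 : X ι ρ v 0 = 0) :
    ρ w v = - X ι ρ v 8 := by
  have := E_sub (ι := ι) (ρ := ρ) hF (ρ w v)
  unfold X at h0 ⊢
  rw [h0, zero_sub] at this
  exact this.symm

theorem v_X (hF : Fintype.card F = 9) (hodd : ∀ y : W, ρ (-1) y = -y) {v : W} {r : ℕ}
    (hv : HV ι ρ v r) (h0 : X ι ρ v 0 = 0) : X ι ρ v (8 - r) = v := by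
  have h1 := w_w_v hodd v
  have hr1 := hv.r1
  have hr7 := hv.r7
  rw [w_v hF h0, map_neg, w_X hF hv (t := 8 - r) (by norm_num) (by omega) (by omega)] at h1
  have h2 : (-1 : k) ^ 8 = 1 := by norm_num
  rw [h2, one_smul] at h1
  exact neg_injective h1

/-- The second vector has vanishing sum. -/
theorem second (hF : Fintype.card F = 9) (hodd : ∀ y : W, ρ (-1) y = -y) {v : W} {r : ℕ}
    (hv : HV ι ρ v r) : E ι ρ 0 (ρ w (X ι ρ v 0)) = 0 := by
  classical
  have hr1 := hv.r1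
  have hr7 := hv.r7
  have h1 : ρ w (X ι ρ v 0) = -v + ∑ c : F, (ι (-c)) ^ r • ρ (u (-c⁻¹)) (ρ w v) := by
    unfold X
    conv_lhs => unfold E
    rw [map_sum]
    have h2 : ∀ c : F, ρ w ((ι c) ^ 0 • ρ (u c) (ρ w v)) = (if c = 0 then -v else 0) +
        (ι (-c)) ^ r • ρ (u (-c⁻¹)) (ρ w v) := by
      intro c
      rw [pow_zero, one_smul]
      by_cases hc : c = 0
      · rw [if_pos hc, hc, u_zero]
        simp only [map_one, Module.End.one_apply, neg_zero, map_zero]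
        rw [w_w_v hodd, zero_pow (by omega), zero_smul, add_zero]
      · rw [if_neg hc, zero_add, wuw hv hc]
    rw [Finset.sum_congr rfl (fun c _ => h2 c), Finset.sum_add_distrib,
      Finset.sum_ite_eq' univ (0 : F)]
    simp
  rw [h1]
  have h3 : ∀ y z : W, E ι ρ 0 (y + z) = E ι ρ 0 y + E ι ρ 0 z := by
    intro y z
    unfold E
    rw [← Finset.sum_add_distrib]
    exact Finset.sum_congr rfl (fun c _ => by rw [map_add, smul_add])
  have h4 : ∀ f : F → W, E ι ρ 0 (∑ c : F, f c) = ∑ c : F, E ι ρ 0 (f c) := by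
    intro f
    unfold E
    rw [Finset.sum_comm]
    exact Finset.sum_congr rfl (fun c _ => by rw [map_sum, Finset.smul_sum])
  have h5 : E ι ρ 0 (-v) = 0 := by
    have : (-v : W) = (-1 : k) • v := by simp
    rw [this, E_smul, E_fix hF hv.hU (by norm_num), smul_zero]
  rw [h3, h4, h5, zero_add]
  have h6 : ∀ c : F, E ι ρ 0 ((ι (-c)) ^ r • ρ (u (-c⁻¹)) (ρ w v)) =
      ((-1) ^ r * (ι c) ^ r) • E ι ρ 0 (ρ w v) := by
    intro c
    rw [E_smul, E0_u, map_neg, neg_pow]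
  rw [Finset.sum_congr rfl (fun c _ => h6 c), ← Finset.sum_smul, ← Finset.mul_sum,
    sumk ι hF r (by omega), if_neg (by omega), mul_zero, zero_smul]

theorem h_X (hF : Fintype.card F = 9) {v : W} {r : ℕ} (hv : HV ι ρ v r) (a : Fˣ) (j : ℕ) :
    ρ (h a) (X ι ρ v j) = (ι (a : F)) ^ (7 * r + 6 * j) • X ι ρ v j := by
  unfold X
  rw [h_E ι ρ hF, comp_apply, h_w, ← comp_apply, hv.hT, map_smul, E_smul, smul_smul]
  congr 1
  have h8 : (ι (a : F)) ^ 8 = 1 := by rw [← map_pow, pow_eight hF a.ne_zero, map_one]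
  have h9 : (ι ((a⁻¹ : Fˣ) : F)) = (ι (a : F)) ^ 7 := by
    rw [Units.val_inv_eq_inv_val, map_inv₀]
    apply inv_eq_of_mul_eq_one_right
    rw [← pow_succ', h8]
  rw [h9]; ring

/-- Existence of a vector with `∑ u(c) w v = 0`. -/
theorem exists_v [IsAlgClosed k] [FiniteDimensional k W] [Nontrivial W]
    (hF : Fintype.card F = 9) (hodd : ∀ y : W, ρ (-1) y = -y) (ζ : Fˣ) (hζ4 : ζ ^ 4 = -1)
    (hζ : ∀ a : Fˣ, ∃ n : ℕ, a = ζ ^ n) :
    ∃ (v : W) (r : ℕ), HV ι ρ v r ∧ Odd r ∧ X ι ρ v 0 = 0 := by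
  classical
  -- a weight vector
  obtain ⟨μ, hμ⟩ := Module.End.exists_eigenvalue (ρ (h ζ))
  obtain ⟨y, hy⟩ := hμ.exists_hasEigenvector
  have hy0 : y ≠ 0 := hy.2
  have hy1 : ρ (h ζ) y = μ • y := hy.apply_eq_smul
  have hyn : ∀ n : ℕ, ρ (h (ζ ^ n)) y = μ ^ n • y := by
    intro n
    induction n with
    | zero => simp [h_one]
    | succ n ih => rw [pow_succ, ← h_mul, ← comp_apply, hy1, map_smul, ih, smul_smul, pow_succ, mul_comm]
  have hμ4 : μ ^ 4 = -1 := by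
    have h1 := hyn 4
    rw [hζ4, h_neg_one, hodd] at h1
    have h2 : (μ ^ 4 + 1) • y = 0 := by rw [add_smul, ← h1, one_smul, neg_add_cancel]
    rcases smul_eq_zero.1 h2 with h3 | h3
    · exact eq_neg_of_add_eq_zero_left h3
    · exact absurd h3 hy0
  set z : k := ι (ζ : F) with hz
  have hz4 : z ^ 4 = -1 := by
    have : ((ζ ^ 4 : Fˣ) : F) = ((-1 : Fˣ) : F) := by rw [hζ4]
    rw [hz, ← map_pow]
    have h2 : (ζ : F) ^ 4 = -1 := by simpa using this
    rw [h2, map_neg, map_one]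
  obtain ⟨r0, hr0odd, hr0⟩ : ∃ r0 : ℕ, Odd r0 ∧ μ = z ^ r0 := by
    have h1 : (μ - z) * ((μ - z ^ 5) * ((μ - z ^ 3) * (μ - z ^ 7))) = 0 := by
      have e5 : z ^ 5 = - z := by linear_combination z * hz4
      have e7 : z ^ 7 = - z ^ 3 := by linear_combination z ^ 3 * hz4
      rw [e5, e7]
      have e6 : z ^ 6 = - z ^ 2 := by linear_combination z ^ 2 * hz4
      linear_combination hμ4 - hz4 + (z ^ 2 - μ ^ 2) * e6
    rcases mul_eq_zero.1 h1 with h | h
    · exact ⟨1, by decide, by rw [pow_one]; exact sub_eq_zero.1 h⟩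
    rcases mul_eq_zero.1 h with h | h
    · exact ⟨5, by decide, sub_eq_zero.1 h⟩
    rcases mul_eq_zero.1 h with h | h
    · exact ⟨3, by decide, sub_eq_zero.1 h⟩
    · exact ⟨7, by decide, sub_eq_zero.1 h⟩
  have hyT : ∀ a : Fˣ, ρ (h a) y = (ι (a : F)) ^ r0 • y := by
    intro a
    obtain ⟨n, rfl⟩ := hζ a
    rw [hyn, hr0, Units.val_pow_eq_pow_val, map_pow, ← pow_mul, ← pow_mul, mul_comm]
  -- the first nonzero sum
  have hex : ∃ i, E ι ρ i y ≠ 0 := by
    by_contra hcon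
    push Not at hcon
    have := E_sub (ι := ι) (ρ := ρ) hF y
    rw [hcon 0, hcon 8, sub_zero] at this
    exact hy0 this.symm
  set i := Nat.find hex with hi
  have hi1 : E ι ρ i y ≠ 0 := Nat.find_spec hex
  have hi2 : ∀ j < i, E ι ρ j y = 0 := fun j hj => by
    have := Nat.find_min hex hj
    push Not at this
    exact this
  have hw8 : ∀ a : Fˣ, (ι (a : F)) ^ 8 = 1 := fun a => by
    rw [← map_pow, pow_eight hF a.ne_zero, map_one]
  have hv : HV ι ρ (E ι ρ i y) ((r0 + 6 * i) % 8) := by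
    have hodd' : (r0 + 6 * i) % 8 % 2 = 1 := by
      have := Nat.odd_iff.1 hr0odd
      omega
    refine ⟨hi1, by omega, by omega, fun c => ?_, fun a => ?_⟩
    · rw [u_E, Finset.sum_range_succ, Finset.sum_eq_zero, zero_add]
      · simp
      · intro j hj
        rw [hi2 j (Finset.mem_range.1 hj), smul_zero]
    · rw [h_E ι ρ hF, hyT, E_smul, smul_smul]
      congr 1
      have h1 : (ι (a : F)) ^ (6 * i) * (ι (a : F)) ^ r0 = (ι (a : F)) ^ (r0 + 6 * i) := by ring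
      rw [h1]
      conv_lhs => rw [← Nat.div_add_mod (r0 + 6 * i) 8, pow_add, pow_mul, hw8, one_pow, one_mul]
  have hodd1 : Odd ((r0 + 6 * i) % 8) := by
    rw [Nat.odd_iff]
    have := Nat.odd_iff.1 hr0odd
    omega
  by_cases h0 : X ι ρ (E ι ρ i y) 0 = 0
  · exact ⟨_, _, hv, hodd1, h0⟩
  · set r := (r0 + 6 * i) % 8 with hr
    have hr1 := hv.r1
    have hr7 := hv.r7
    refine ⟨X ι ρ (E ι ρ i y) 0, 8 - r, ⟨h0, by omega, by omega, fun c => ?_, fun a => ?_⟩, ?_,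
      second hF hodd hv⟩
    · unfold X
      rw [u_E]; simp
    · rw [h_X hF hv]
      congr 1
      have h2 : 7 * r + 6 * 0 = 8 * (r - 1) + (8 - r) := by omega
      rw [h2, pow_add, pow_mul, hw8, one_pow, one_mul]
    · rw [Nat.odd_iff] at hodd1 ⊢; omega

end Pool.Agent.X13.SL
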